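import Pool.Agent.J6H59.CC.Alt3

/-!
# Alternative nil rings with finitely many orbits on quadruples
-/

set_option autoImplicit false

namespace Pool.Agent.J6H59.CC

universe u

/-- every element has a power `x ^ (n + 1) = 0` -/
def NilRing (A : Type*) [NonUnitalNonAssocRing A] : Prop := ∀ x : A, ∃ n, Pw x n = 0

section
variable {A : Type u} [NonUnitalNonAssocRing A]

theorem rad_of_nil (hA : Alternative A) {n : ℕ} (hn : ∀ x : A, Pw x n = 0) {m : ℕ}
    (hm : ∀ x : A, m • x = 0) (h3 : Nat.Coprime 3 m) : Rad A := by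
  intro K hK _ hKt
  obtain ⟨Q, _, π, hπs, hπa, hπm, hπ0⟩ := exists_quot K hK
  let φ : A →+ Q := AddMonoidHom.mk' π hπa
  have hQalt : Alternative Q := by
    intro x y
    obtain ⟨x, rfl⟩ := hπs x
    obtain ⟨y, rfl⟩ := hπs y
    have h := hA x y
    rw [← hπm, ← hπm, ← hπm, ← hπm, ← hπm, ← hπm, ← hπm, h.1, h.2]
    exact ⟨rfl, rfl⟩
  have hQn : ∀ x : Q, Pw x n = 0 := by
    intro x
    obtain ⟨x, rfl⟩ := hπs x
    rw [← pw_map π hπm, hn]
    exact map_zero φ
  have hQm : ∀ x : Q, m • x = 0 := by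
    intro x
    obtain ⟨x, rfl⟩ := hπs x
    have h : φ (m • x) = m • φ x := map_nsmul φ m x
    rw [hm, map_zero] at h
    exact h.symm
  have hQ3 : ∀ x : Q, x + x + x = 0 → x = 0 := by
    intro x hx
    have h1 : 3 • x = 0 := by
      rw [← hx]
      abel
    have h2 : addOrderOf x ∣ 3 := addOrderOf_dvd_of_nsmul_eq_zero h1
    have h4 : addOrderOf x ∣ m := addOrderOf_dvd_of_nsmul_eq_zero (hQm x)
    have h5 := Nat.eq_one_of_dvd_coprimes h3 h2 h4
    exact AddMonoid.addOrderOf_eq_one_iff.1 h5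
  have hQ0 : ∃ x : Q, x ≠ 0 := by
    by_contra hcon
    push Not at hcon
    apply hKt
    rw [eq_top_iff]
    intro x _
    exact (hπ0 x).1 (hcon _)
  obtain ⟨z, hz0, hz1, hz2⟩ := exists_azd n Q hQalt hQn hQ0
  have hns : ¬ SemiPrime Q := fun h => hz0 (noAZD hQalt h hQ3 hz1 hz2)
  unfold SemiPrime at hns
  push Not at hns
  obtain ⟨I, hI, hsq, y, hy, hy0⟩ := hns
  refine ⟨I.comap φ, ?_, ?_, ?_⟩
  · intro x hx c
    have hx' : π x ∈ I := hx
    constructor
    · show π (c * x) ∈ I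
      rw [hπm]
      exact (hI _ hx' _).1
    · show π (x * c) ∈ I
      rw [hπm]
      exact (hI _ hx' _).2
  · intro hle
    obtain ⟨y, rfl⟩ := hπs y
    exact hy0 ((hπ0 y).2 (hle hy))
  · intro x hx x' hx'
    rw [← hπ0, hπm]
    exact hsq _ hx _ hx'

/-- bounded nil index -/
theorem bounded_nil (hO : Olig A) (hN : NilRing A) : ∃ n, ∀ x : A, Pw x n = 0 := by
  classical
  obtain ⟨S, hS⟩ := hO
  choose f hf using hN
  refine ⟨∑ s ∈ S, f (s 0), fun x => ?_⟩
  obtain ⟨s, hs, g, hg⟩ := hS (fun _ => x)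
  have h1 : Pw (s 0) (∑ s ∈ S, f (s 0)) = 0 := by
    have : f (s 0) ≤ ∑ s ∈ S, f (s 0) :=
      Finset.single_le_sum (f := fun s : Fin 4 → A => f (s 0)) (fun _ _ => Nat.zero_le _) hs
    obtain ⟨k, hk⟩ := Nat.exists_eq_add_of_le this
    rw [hk]
    exact pw_stay (hf _) k
  have h2 := pw_map (fun x => g x) (fun x y => map_mul g x y) (s 0) (∑ s ∈ S, f (s 0))
  have h3 : g (s 0) = x := hg 0
  rw [h1] at h2
  have h4 : Pw (g (s 0)) (∑ s ∈ S, f (s 0)) = 0 := h2.symm.trans (map_zero g)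
  rw [h3] at h4
  exact h4

/-- finite exponent -/
theorem exponent (hO : Olig A) : ∃ m, 0 < m ∧ ∀ x : A, m • x = 0 := by
  classical
  obtain ⟨S, hS⟩ := hO
  refine ⟨(S.card).factorial, Nat.factorial_pos _, fun x => ?_⟩
  have hc : ∀ k : ℕ, ∃ s ∈ S, ∃ g : A ≃+* A, g (s 0) = x ∧ g (s 1) = k • x := by
    intro k
    obtain ⟨s, hs, g, hg⟩ := hS (fun i => if i = 0 then x else k • x)
    refine ⟨s, hs, g, ?_, ?_⟩
    · have := hg 0
      simpa using this
    · have := hg 1
      simpa using this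
  choose F hF1 hF2 using hc
  obtain ⟨i, hi, j, hj, hij, he⟩ := Finset.exists_ne_map_eq_of_card_lt_of_maps_to
    (s := Finset.range (S.card + 1)) (t := S) (by simp) (fun k _ => hF1 k)
  have key : ∀ i j : ℕ, i < j → j ≤ S.card → F i = F j → (S.card).factorial • x = 0 := by
    intro i j hij hj he
    obtain ⟨g, hg1, hg2⟩ := hF2 i
    obtain ⟨g', hg1', hg2'⟩ := hF2 j
    rw [he] at hg1 hg2
    have h1 : F j 1 = i • F j 0 := by
      apply g.injective
      rw [hg2, map_nsmul, hg1]
    have h2 : F j 1 = j • F j 0 := by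
      apply g'.injective
      rw [hg2', map_nsmul, hg1']
    have h3 : i • x = j • x := by
      rw [← hg1, ← map_nsmul, ← map_nsmul, ← h1, ← h2]
    have h4 : (j - i) • x = 0 := by
      have : (j - i) • x + i • x = j • x := by rw [← add_nsmul, Nat.sub_add_cancel hij.le]
      rw [h3] at this
      exact add_eq_right.1 this
    obtain ⟨c, hc⟩ : (j - i) ∣ (S.card).factorial :=
      Nat.dvd_factorial (by omega) (by omega)
    rw [hc, mul_comm, mul_nsmul', h4, nsmul_zero]
  rcases lt_or_gt_of_ne hij with h | h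
  · exact key i j h (by have := Finset.mem_range.1 hj; omega) he
  · exact key j i h (by have := Finset.mem_range.1 hi; omega) he.symm

/-- the main theorem -/
theorem main (hO : Olig A) (hA : Alternative A) (hN : NilRing A) :
    ∃ k e : ℕ, ∀ a ∈ Derived A k, 3 ^ e • a = 0 := by
  obtain ⟨n, hn⟩ := bounded_nil hO hN
  obtain ⟨m, hm0, hm⟩ := exponent hO
  obtain ⟨e, m', h3, rfl⟩ : ∃ e m', ¬ 3 ∣ m' ∧ m = 3 ^ e * m' := by
    obtain ⟨e, m', h1, h2⟩ := Nat.exists_eq_pow_mul_and_not_dvd hm0.ne' 3 (by norm_num)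
    exact ⟨e, m', h1, h2⟩
  have hcop : Nat.Coprime 3 m' := (Nat.Prime.coprime_iff_not_dvd Nat.prime_three).2 h3
  have hcop' : Nat.Coprime (3 ^ e) m' := Nat.Coprime.pow_left e hcop
  -- the part prime to `3`
  let B : NonUnitalSubring A :=
    { carrier := {x | m' • x = 0}
      zero_mem' := nsmul_zero _
      add_mem' := by
        intro x y hx hy
        have hx' : m' • x = 0 := hx
        have hy' : m' • y = 0 := hy
        show m' • (x + y) = 0
        rw [nsmul_add, hx', hy', add_zero]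
      neg_mem' := by
        intro x hx
        have hx' : m' • x = 0 := hx
        show m' • (-x) = 0
        rw [smul_neg, hx', neg_zero]
      mul_mem' := by
        intro x y hx _
        have hx' : m' • x = 0 := hx
        show m' • (x * y) = 0
        rw [← smul_mul_assoc, hx', zero_mul] }
  have hBmem : ∀ x : A, x ∈ B ↔ m' • x = 0 := fun x => Iff.rfl
  have hBg : ∀ g : A ≃+* A, ∀ x ∈ B, g x ∈ B := by
    intro g x hx
    rw [hBmem] at hx ⊢
    rw [← map_nsmul, hx, map_zero]
  have hOB := olig_sub hO B hBg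
  have hBalt : Alternative B := by
    intro x y
    have h := hA x.1 y.1
    exact ⟨Subtype.ext h.1, Subtype.ext h.2⟩
  have hBn : ∀ x : B, Pw x n = 0 := by
    intro x
    apply Subtype.ext
    have := pw_map (fun x : B => (x : A)) (fun x y => rfl) x n
    rw [hn] at this
    exact this
  have hBm : ∀ x : B, m' • x = 0 := fun x => Subtype.ext x.2
  obtain ⟨k, hk⟩ := solvable hOB (rad_of_nil hBalt hBn hBm hcop)
  -- the projection
  obtain ⟨N, hN1, hN2⟩ := Nat.chineseRemainder hcop' 0 1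
  have hN3 : 3 ^ e ∣ N := (Nat.modEq_zero_iff_dvd).1 hN1
  obtain ⟨t, rfl⟩ := hN3
  have hmap : ∀ x : A, (3 ^ e * t) • x ∈ B := by
    intro x
    rw [hBmem, ← mul_nsmul', show m' * (3 ^ e * t) = t * (3 ^ e * m') by ring, mul_nsmul', hm,
      nsmul_zero]
  -- numbers congruent modulo the exponent
  have hcongr : ∀ a b : ℕ, a ≡ b [MOD (3 ^ e * m')] → ∀ x : A, a • x = b • x := by
    intro a b hab x
    exact nsmul_eq_nsmul_iff_modEq.2 (hab.of_dvd (addOrderOf_dvd_of_nsmul_eq_zero (hm x)))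
  refine ⟨k, e, ?_⟩
  let ψ : A →+ B := AddMonoidHom.mk' (fun x => ⟨(3 ^ e * t) • x, hmap x⟩) (fun x y => by
    apply Subtype.ext
    show (3 ^ e * t) • (x + y) = (3 ^ e * t) • x + (3 ^ e * t) • y
    rw [nsmul_add])
  have hψm : ∀ x y, ψ (x * y) = ψ x * ψ y := by
    intro x y
    apply Subtype.ext
    show (3 ^ e * t) • (x * y) = ((3 ^ e * t) • x) * ((3 ^ e * t) • y)
    rw [smul_mul_assoc, mul_smul_comm, ← mul_nsmul']
    apply hcongr
    refine (Nat.modEq_and_modEq_iff_modEq_mul hcop').1 ⟨?_, ?_⟩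
    · have z := hN1.mul_right (3 ^ e * t)
      rw [zero_mul] at z
      exact hN1.trans z.symm
    · have z := hN2.mul_right (3 ^ e * t)
      rw [one_mul] at z
      exact z.symm
  have hder : ∀ j, ∀ a ∈ Derived A j, ψ a ∈ Derived B j := by
    intro j
    induction j with
    | zero => intro a _; exact AddSubgroup.mem_top _
    | succ j ih =>
      have : Derived A (j + 1) ≤ (Derived B (j + 1)).comap ψ := by
        show AddSubgroup.closure _ ≤ _
        rw [AddSubgroup.closure_le]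
        rintro _ ⟨u, hu, v, hv, rfl⟩
        show ψ (u * v) ∈ Derived B (j + 1)
        rw [hψm]
        exact AddSubgroup.subset_closure ⟨_, ih u hu, _, ih v hv, rfl⟩
      intro a ha
      exact this ha
  intro a ha
  have h1 := hder k a ha
  rw [hk, AddSubgroup.mem_bot] at h1
  have h2 : (3 ^ e * t) • a = 0 := congrArg Subtype.val h1
  have h5 := hcongr _ _ (hN2.mul_left' (3 ^ e)) a
  rw [mul_one, mul_nsmul', h2, nsmul_zero] at h5
  exact h5.symm

theorem solvable_of_nil (hO : Olig A) (hA : Alternative A) (hN : NilRing A)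
    (h3 : ∀ a : A, 3 • a = 0 → a = 0) : Solvable A := by
  obtain ⟨k, e, h⟩ := main hO hA hN
  refine ⟨k, ?_⟩
  rw [eq_bot_iff]
  intro a ha
  rw [AddSubgroup.mem_bot]
  have h1 := h a ha
  clear h
  induction e with
  | zero => simpa using h1
  | succ e ih =>
    apply ih
    apply h3
    rw [← mul_nsmul', mul_comm, ← pow_succ]
    rw [pow_succ, mul_comm] at h1 ⊢
    exact h1

end

end Pool.Agent.J6H59.CC
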