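import Pool.Agent.J6H59.CC.Solv

/-!
# Identities of alternative rings
-/

set_option autoImplicit false
set_option linter.unusedSimpArgs false
set_option linter.style.longLine false

namespace Pool.Agent.J6H59.CC

/-- the associator -/
def as {A : Type*} [NonUnitalNonAssocRing A] (x y z : A) : A := (x * y) * z - x * (y * z)

section
variable {A : Type*} [NonUnitalNonAssocRing A]

theorem as_add1 (x x' y z : A) : as (x + x') y z = as x y z + as x' y z := by
  simp only [as, mul_add, add_mul, mul_sub, sub_mul, mul_neg, neg_mul, mul_zero, zero_mul]; abel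
theorem as_add2 (x y y' z : A) : as x (y + y') z = as x y z + as x y' z := by
  simp only [as, mul_add, add_mul, mul_sub, sub_mul, mul_neg, neg_mul, mul_zero, zero_mul]; abel
theorem as_add3 (x y z z' : A) : as x y (z + z') = as x y z + as x y z' := by
  simp only [as, mul_add, add_mul, mul_sub, sub_mul, mul_neg, neg_mul, mul_zero, zero_mul]; abel

theorem teich (w x y z : A) :
    as (w * x) y z - as w (x * y) z + as w x (y * z) - w * as x y z - as w x y * z = 0 := by
  simp only [as, mul_add, add_mul, mul_sub, sub_mul, mul_neg, neg_mul, mul_zero, zero_mul]; abel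

variable (hA : Alternative A)
include hA

theorem as_l (x y : A) : as x x y = 0 := by
  unfold as; rw [(hA x y).1, sub_self]

theorem as_r (x y : A) : as y x x = 0 := by
  unfold as; rw [(hA x y).2, sub_self]

theorem sw12 (x y z : A) : as y x z = - as x y z := by
  have h1 := as_l hA (x + y) z
  have h2 := as_l hA x z
  have h3 := as_l hA y z
  linear_combination (norm := (simp only [as, mul_add, add_mul, mul_sub, sub_mul, mul_neg, neg_mul, mul_zero, zero_mul]; abel)) h1 - h2 - h3

theorem sw23 (x y z : A) : as x z y = - as x y z := by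
  have h1 := as_r hA (y + z) x
  have h2 := as_r hA y x
  have h3 := as_r hA z x
  linear_combination (norm := (simp only [as, mul_add, add_mul, mul_sub, sub_mul, mul_neg, neg_mul, mul_zero, zero_mul]; abel)) h1 - h2 - h3

theorem sw13 (x y z : A) : as z y x = - as x y z := by
  rw [sw12 hA y z x, sw23 hA y x z, sw12 hA x y z]; abel

theorem cyc (x y z : A) : as y z x = as x y z := by
  rw [sw23 hA y x z, sw12 hA x y z, neg_neg]

theorem cyc' (x y z : A) : as z x y = as x y z := by
  rw [sw12 hA x z y, sw23 hA x y z, neg_neg]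

theorem as_m (x y : A) : as x y x = 0 := by
  rw [sw23 hA x x y, as_l hA, neg_zero]

theorem s12 (x y z : A) : as y x z + as x y z = 0 := by rw [sw12 hA x y z]; abel

theorem s23 (x y z : A) : as x z y + as x y z = 0 := by rw [sw23 hA x y z]; abel

theorem teich' (w x y z : A) : as (w * x) y z + as (x * y) w z + as (y * z) w x
    - w * as x y z - as w x y * z = 0 := by
  have t := teich w x y z
  have e1 := sw12 hA (x * y) w z
  have e2 := cyc' hA w x (y * z)
  rw [e1] at t
  rw [e2]
  rw [← t]
  abel

/-- the formula for the associator of a product -/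
theorem kl (w x y z : A) : as (x * w) y z = x * as w y z + as x y z * w
    + as (y * z - z * y) w x := by
  have t1 := teich' hA x z w y
  have t2 := teich' hA x w y z
  have t3 := teich' hA w x y z
  have t4 := teich' hA x y z w
  have t5 := teich' hA w x z y
  have e1 := s23 hA (y*z) w x
  linear_combination (norm := (simp only [as, mul_add, add_mul, mul_sub, sub_mul, mul_neg, neg_mul, mul_zero, zero_mul]; abel)) - t1 + t2 + t3 + t4 + t5 - e1 - e1 - s23 hA (w*x) y z
    - s23 hA (x*y) w z - x * cyc hA y z w + w * s23 hA x y z + (cyc' hA x z w) * y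
    + s12 hA x w y * z

theorem moufR (v x a : A) : ((v * x) * a) * x = v * ((x * a) * x) := by
  linear_combination (norm := (simp only [as, mul_add, add_mul, mul_sub, sub_mul, mul_neg, neg_mul, mul_zero, zero_mul]; abel)) s23 hA (v*x) x a - s12 hA a v x * x - a * as_r hA x v - s23 hA v a (x*x) - v * as_l hA x a + s12 hA v a (x*x) - s12 hA (v*x) a x + s23 hA v x a * x - as_r hA x v * a + s23 hA v (x*a) x + as_r hA x (a*v)

theorem moufL (v x a : A) : ((x * a) * x) * v = x * (a * (x * v)) := by
  linear_combination (norm := (simp only [as, mul_add, add_mul, mul_sub, sub_mul, mul_neg, neg_mul, mul_zero, zero_mul]; abel)) - as_l hA x (a*v) + x * s23 hA x a v + s12 hA (v*a) x x + s23 hA x (x*v) a - s23 hA (x*x) v a + as_l hA x a * v - s23 hA x (v*a) x - as_r hA x (v*a) + s12 hA (x*a) x v + as_l hA x v * a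

theorem moufM (x a b : A) : (x * a) * (b * x) = x * ((a * b) * x) := by
  linear_combination (norm := (simp only [as, mul_add, add_mul, mul_sub, sub_mul, mul_neg, neg_mul, mul_zero, zero_mul]; abel)) as_r hA x (b*a) + as_r hA x a * b - a * s12 hA b x x + s23 hA a b (x*x) + as_r hA x (a*b) + s12 hA (x*b) a x + s12 hA x a (b*x) + s23 hA x b (a*x) + s23 hA b a x * x - s12 hA (b*a) x x - s12 hA b a x * x - s23 hA a x (x*b) - x * s12 hA b a x - s12 hA b x a * x - s23 hA a (b*x) x - s12 hA (a*x) x b + a * s23 hA x b x

theorem m1 (x a y : A) : as x (x * a) y = as x a y * x := by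
  linear_combination (norm := (simp only [as, mul_add, add_mul, mul_sub, sub_mul, mul_neg, neg_mul, mul_zero, zero_mul]; abel)) - as_l hA x a * y - s12 hA y (x*a) x - s23 hA x (y*x) a + s12 hA (y*x) x a - y * as_l hA x a + s23 hA x (a*y) x - as_r hA x y * a + s23 hA y (x*a) x - s12 hA (x*x) y a + x * s23 hA a y x + s23 hA (x*x) y a - x * s12 hA x a y

theorem m2 (x a y : A) : as x (a * x) y = x * as x a y := by
  linear_combination (norm := (simp only [as, mul_add, add_mul, mul_sub, sub_mul, mul_neg, neg_mul, mul_zero, zero_mul]; abel)) s12 hA a x (x*y) + s12 hA (x*y) x a + s12 hA x (x*a) y + x * s23 hA x y a + as_l hA x y * a + s12 hA x x a * y - s23 hA a x (x*y) - s23 hA x x a * y + s12 hA (x*y) a x - x * s12 hA a x y - s23 hA (x*y) x a - as_l hA x (a*y) - s23 hA (x*x) y a - as_l hA x (y*a)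

/-- if `u z = z u = 0` then `c ↦ (u, z, c)` is a derivation -/
theorem der {u z : A} (h1 : u * z = 0) (h2 : z * u = 0) (b c : A) :
    as u z (b * c) = b * as u z c + as u z b * c := by
  have h := kl hA c b u z
  rw [h1, h2, sub_zero] at h
  have e0 : as (0 : A) c b = 0 := by simp [as]
  rw [e0, add_zero] at h
  rw [cyc hA (b * c) u z, h, cyc hA c u z, cyc hA b u z]

end

end Pool.Agent.J6H59.CC
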