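import Pool.Agent.J6H59.CC.Alt1

/-!
# Absolute zero divisors in semiprime alternative rings without elements of order 3
-/

set_option autoImplicit false
set_option linter.unusedSimpArgs false
set_option linter.style.longLine false

namespace Pool.Agent.J6H59.CC

section
variable {A : Type*} [NonUnitalNonAssocRing A]

/-- both products with all `X c` vanish -/
def PX (X : A → A) (v : A) : Prop := ∀ c, X c * v = 0 ∧ v * X c = 0

theorem PX.add {X : A → A} {v w : A} (h1 : PX X v) (h2 : PX X w) : PX X (v + w) := fun c => by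
  rw [mul_add, add_mul, (h1 c).1, (h1 c).2, (h2 c).1, (h2 c).2]
  simp

theorem PX.neg {X : A → A} {v : A} (h1 : PX X v) : PX X (-v) := fun c => by
  rw [mul_neg, neg_mul, (h1 c).1, (h1 c).2]
  simp

theorem PX.zero {X : A → A} : PX X (0 : A) := fun c => by simp

variable (hA : Alternative A)
include hA

theorem R0 {X : A → A} {y : A} (hy : PX X y) (a c : A) : (a * y) * X c = X c * (y * a) := by
  have h := s12 hA a y (X c)
  have h1 := (hy c).1
  have h2 := (hy c).2
  have h3 := sw13 hA (X c) y a
  have e1 : as a y (X c) = (a * y) * X c := by unfold as; rw [h2, mul_zero, sub_zero]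
  have e2 : as (X c) y a = - (X c * (y * a)) := by unfold as; rw [h1, zero_mul, zero_sub]
  rw [e1, e2, neg_neg] at h3
  exact h3

theorem R1 {X : A → A} (hX : ∀ b c, X (b * c) = b * X c + X b * c) {y : A} (hy : PX X y)
    (a c : A) : X c * (a * y) = X a * (y * c) - X c * (y * a) := by
  -- `(X c a) y = X a (y c)`
  have h1 : (X c * a) * y = X a * (y * c) := by
    have e1 : X (c * a) * y = 0 := (hy _).1
    rw [hX, add_mul] at e1
    have e2 : as c (X a) y = (c * X a) * y := by unfold as; rw [(hy a).1, mul_zero, sub_zero]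
    have e3 : as (X a) y c = - (X a * (y * c)) := by unfold as; rw [(hy a).1, zero_mul, zero_sub]
    have e4 := cyc hA c (X a) y
    rw [e2, e3] at e4
    rw [← e4] at e1
    rw [neg_add_eq_zero] at e1
    exact e1.symm
  have e5 : as (X c) a y = (X c * a) * y - X c * (a * y) := rfl
  have e6 : as (X c) y a = - (X c * (y * a)) := by unfold as; rw [(hy c).1, zero_mul, zero_sub]
  have e7 := sw23 hA (X c) y a
  rw [e5, e6, h1, neg_neg] at e7
  rw [← e7]
  abel

theorem R2 {X : A → A} (hX : ∀ b c, X (b * c) = b * X c + X b * c) {y : A} (hy : PX X y)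
    (a c : A) : (y * a) * X c = X c * (a * y) := by
  rw [R1 hA hX hy]
  have h1 : y * (a * X c) = X a * (y * c) := by
    have e1 : y * X (a * c) = 0 := (hy _).2
    rw [hX, mul_add] at e1
    have e2 : as y (X a) c = - (y * (X a * c)) := by unfold as; rw [(hy a).2, zero_mul, zero_sub]
    have e3 : as (X a) y c = - (X a * (y * c)) := by unfold as; rw [(hy a).1, zero_mul, zero_sub]
    have e4 := sw12 hA (X a) y c
    rw [e2, e3, neg_neg] at e4
    rw [← e4]
    exact eq_neg_of_add_eq_zero_left e1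
  have e5 : as y a (X c) = (y * a) * X c - y * (a * X c) := rfl
  have e6 : as (X c) y a = - (X c * (y * a)) := by unfold as; rw [(hy c).1, zero_mul, zero_sub]
  have e7 := cyc hA (X c) y a
  rw [e5, e6, h1] at e7
  rw [sub_eq_iff_eq_add] at e7
  rw [e7]
  abel

theorem step {X : A → A} (hX : ∀ b c, X (b * c) = b * X c + X b * c)
    (h3 : ∀ x : A, x + x + x = 0 → x = 0) {v : A} (hr : ∀ b, PX X (v * b))
    (hl : ∀ b, PX X (b * v)) (a b : A) :
    PX X ((v * b) * a) ∧ PX X (a * (v * b)) ∧ PX X ((b * v) * a) ∧ PX X (a * (b * v)) := by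
  have E1 : ∀ a b c, X c * ((v * b) * a) + X c * ((v * a) * b) = 0 := by
    intro a b c
    have e1 := s23 hA v a b
    have e2 := (hr (a * b) c).1
    have e3 := (hr (b * a) c).1
    linear_combination (norm := (simp only [as, mul_add, add_mul, mul_sub, sub_mul, mul_neg, neg_mul, mul_zero, zero_mul]; abel)) X c * e1 + e2 + e3
  have E3 : ∀ a b c, X c * ((v * b) * a) = X c * (a * (b * v)) := by
    intro a b c
    have e1 := sw13 hA v b a
    have e2 := (hr (b * a) c).1
    have e3 := (hl (a * b) c).1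
    linear_combination (norm := (simp only [as, mul_add, add_mul, mul_sub, sub_mul, mul_neg, neg_mul, mul_zero, zero_mul]; abel)) X c * e1 + e2 - e3
  have E4 : ∀ a b c, X c * ((b * v) * a) = X c * (b * (v * a)) - X c * ((v * b) * a) := by
    intro a b c
    have e1 := s12 hA b v a
    have e2 := (hr (b * a) c).1
    linear_combination (norm := (simp only [as, mul_add, add_mul, mul_sub, sub_mul, mul_neg, neg_mul, mul_zero, zero_mul]; abel)) X c * e1 + e2
  have K : ∀ a b c, X c * ((v * b) * a) = X b * ((v * c) * a) + X b * ((v * c) * a) := by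
    intro a b c
    have f1 := E3 a b c
    have f2 := R1 hA hX (hl b) a c
    have f3 := E4 c b a
    have f4 := E4 a b c
    have f5 := R1 hA hX (hr c) b a
    have f6 := R1 hA hX (hr a) b c
    have f7 := E1 b c a
    have f8 := E1 b a c
    have f9 := E1 a c b
    linear_combination (norm := abel) f1 + f2 + f3 - f4 + f5 - f6 - f7 + f8 - f9
  have Z : ∀ a b c, X c * ((v * b) * a) = 0 := by
    intro a b c
    apply h3
    have k1 := K a b c
    have k2 := K a c b
    have : X c * ((v * b) * a) + X c * ((v * b) * a) + X c * ((v * b) * a) +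
        X c * ((v * b) * a) = X c * ((v * b) * a) := by
      conv_rhs => rw [k1, k2]
      abel
    linear_combination (norm := abel) this
  have Z2 : ∀ a b c, X c * (a * (v * b)) = 0 := by
    intro a b c
    rw [R1 hA hX (hr b) a c, Z, Z, sub_zero]
  have Z3 : ∀ a b c, X c * ((b * v) * a) = 0 := by
    intro a b c
    rw [E4, Z, Z2, sub_zero]
  have Z4 : ∀ a b c, X c * (a * (b * v)) = 0 := by
    intro a b c
    rw [← E3, Z]
  refine ⟨fun c => ⟨Z a b c, ?_⟩, fun c => ⟨Z2 a b c, ?_⟩, fun c => ⟨Z3 a b c, ?_⟩,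
    fun c => ⟨Z4 a b c, ?_⟩⟩
  · rw [R2 hA hX (hr b), Z2]
  · rw [R0 hA (hr b), Z]
  · rw [R2 hA hX (hl b), Z4]
  · rw [R0 hA (hl b), Z3]

omit hA in
/-- membership in the ideal generated by `z` -/
inductive Gen (z : A) : A → Prop
  | base : Gen z z
  | zero : Gen z 0
  | add {v w : A} : Gen z v → Gen z w → Gen z (v + w)
  | neg {v : A} : Gen z v → Gen z (-v)
  | left (c : A) {v : A} : Gen z v → Gen z (c * v)
  | right (c : A) {v : A} : Gen z v → Gen z (v * c)

omit hA in
theorem genInd {z : A} (Q : A → Prop) (q0 : Q 0) (qa : ∀ v w, Q v → Q w → Q (v + w))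
    (qn : ∀ v, Q v → Q (-v)) (qz : Q z) (qr : ∀ b, Q (z * b)) (ql : ∀ b, Q (b * z))
    (qs : ∀ v, (∀ b, Q (v * b)) → (∀ b, Q (b * v)) → ∀ a b,
      Q ((v * b) * a) ∧ Q (a * (v * b)) ∧ Q ((b * v) * a) ∧ Q (a * (b * v)))
    {v : A} (hv : Gen z v) : Q v ∧ (∀ b, Q (v * b)) ∧ ∀ b, Q (b * v) := by
  induction hv with
  | base => exact ⟨qz, qr, ql⟩
  | zero => simp [q0]
  | add _ _ h1 h2 =>
    refine ⟨qa _ _ h1.1 h2.1, fun b => ?_, fun b => ?_⟩
    · rw [add_mul]; exact qa _ _ (h1.2.1 b) (h2.2.1 b)
    · rw [mul_add]; exact qa _ _ (h1.2.2 b) (h2.2.2 b)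
  | neg _ h1 =>
    refine ⟨qn _ h1.1, fun b => ?_, fun b => ?_⟩
    · rw [neg_mul]; exact qn _ (h1.2.1 b)
    · rw [mul_neg]; exact qn _ (h1.2.2 b)
  | left c _ h1 =>
    exact ⟨h1.2.2 c, fun b => (qs _ h1.2.1 h1.2.2 b c).2.2.1,
      fun b => (qs _ h1.2.1 h1.2.2 b c).2.2.2⟩
  | right c _ h1 =>
    exact ⟨h1.2.1 c, fun b => (qs _ h1.2.1 h1.2.2 b c).1, fun b => (qs _ h1.2.1 h1.2.2 b c).2.1⟩

theorem X1 {u z : A} (h1 : u * z = 0) (c : A) : as u z c = (c * u) * z := by
  have h := cyc' hA u z c
  rw [← h]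
  unfold as
  rw [h1, mul_zero, sub_zero]

theorem X2 {u z : A} (h2 : z * u = 0) (c : A) : as u z c = z * (u * c) := by
  have h := sw12 hA z u c
  rw [h]
  unfold as
  rw [h2, zero_mul, zero_sub, neg_neg]

theorem azyz {z : A} (hz : ∀ a, (z * a) * z = 0) (a y : A) :
    (a * z) * (y * z) = z * (a * (y * z)) := by
  have hz' : ∀ a, z * (a * z) = 0 := by
    intro a
    have := as_m hA z a
    unfold as at this
    rw [hz, zero_sub, neg_eq_zero] at this
    exact this
  have h1 : (a * z) * (y * z) = - (z * as z a y) := by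
    have e1 : as (a * z) y z = ((a * z) * y) * z - (a * z) * (y * z) := rfl
    rw [moufR hA a z y, hz, mul_zero, zero_sub] at e1
    rw [← m2 hA, cyc' hA (a * z) y z, e1, neg_neg]
  have h2 : z * (a * (y * z)) = - (z * as z a y) := by
    have e1 : as z a (y * z) = (z * a) * (y * z) - z * (a * (y * z)) := rfl
    rw [moufM hA z a y, hz', zero_sub] at e1
    have e2 := sw23 hA z (y * z) a
    rw [e1, m2 hA z y a, sw23 hA z a y, mul_neg, neg_neg] at e2
    rw [← e2, neg_neg]
  rw [h1, h2]

/-- the elements `(u, z, c)` annihilate the ideal generated by `z` -/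
theorem ann (h3 : ∀ x : A, x + x + x = 0 → x = 0) {z u : A} (hz0 : z * z = 0)
    (hz : ∀ a, (z * a) * z = 0) (h1 : u * z = 0) (h2 : z * u = 0) {v : A} (hv : Gen z v) (c : A) :
    as u z c * v = 0 ∧ v * as u z c = 0 := by
  have hX : ∀ b c, as u z (b * c) = b * as u z c + as u z b * c := der hA h1 h2
  have hPz : PX (as u z) z := by
    intro c
    constructor
    · rw [X1 hA h1, (hA z (c * u)).2, hz0, mul_zero]
    · rw [X2 hA h2, ← (hA z (u * c)).1, hz0, zero_mul]
  have hB : ∀ a c, as u z c * (z * a) = 0 ∧ as u z c * (a * z) = 0 ∧ (z * a) * as u z c = 0 ∧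
      (a * z) * as u z c = 0 := by
    intro a c
    obtain ⟨p1, p2⟩ := hPz c
    have c1 : (as u z c * a) * z = 0 := by rw [X1 hA h1, moufR hA, hz, mul_zero]
    have c2 : z * (a * as u z c) = 0 := by rw [X2 hA h2, ← moufL hA, hz, zero_mul]
    have c3 : (a * z) * as u z c = 0 := by
      have : (a * z) * as u z c = z * (a * as u z c) := by
        conv_lhs => rw [X1 hA h1]
        conv_rhs => rw [X1 hA h1]
        exact azyz hA hz a (c * u)
      rw [this, c2]
    have t1 : as a z (as u z c) = 0 := by unfold as at *; rw [c3, p2, mul_zero, sub_zero]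
    have t0 : as (as u z c) a z = 0 := by rw [← cyc hA (as u z c) a z, t1]
    have t2 : as (as u z c) z a = 0 := by rw [sw23 hA (as u z c) a z, t0, neg_zero]
    have t3 : as z a (as u z c) = 0 := by rw [sw12 hA a z (as u z c), t1, neg_zero]
    refine ⟨?_, ?_, ?_, c3⟩
    · have e : as (as u z c) z a = (as u z c * z) * a - as u z c * (z * a) := rfl
      rw [t2, p1, zero_mul, zero_sub] at e
      exact neg_eq_zero.1 e.symm
    · have e : as (as u z c) a z = (as u z c * a) * z - as u z c * (a * z) := rfl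
      rw [t0, c1, zero_sub] at e
      exact neg_eq_zero.1 e.symm
    · have e : as z a (as u z c) = (z * a) * as u z c - z * (a * as u z c) := rfl
      rw [t3, c2, sub_zero] at e
      exact e.symm
  exact (genInd (PX (as u z)) PX.zero (fun _ _ => PX.add) (fun _ => PX.neg) hPz
    (fun b c => ⟨(hB b c).1, (hB b c).2.2.1⟩) (fun b c => ⟨(hB b c).2.1, (hB b c).2.2.2⟩)
    (fun v hr hl a b => step hA hX h3 hr hl a b) hv).1 c

omit hA in
/-- there is no nonzero ideal with zero multiplication -/
def SemiPrime (A : Type*) [NonUnitalNonAssocRing A] : Prop :=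
  ∀ I : AddSubgroup A, IsIdeal I → (∀ x ∈ I, ∀ y ∈ I, x * y = 0) → ∀ x ∈ I, x = 0

theorem annJ (hS : SemiPrime A) {z v : A} (h1 : Gen z v)
    (h2 : ∀ w, Gen z w → v * w = 0 ∧ w * v = 0) : v = 0 := by
  let I : AddSubgroup A :=
    { carrier := {v | Gen z v ∧ ∀ w, Gen z w → v * w = 0 ∧ w * v = 0}
      zero_mem' := ⟨Gen.zero, fun w _ => by simp⟩
      add_mem' := by
        rintro a b ⟨ha, ha'⟩ ⟨hb, hb'⟩
        refine ⟨Gen.add ha hb, fun w hw => ?_⟩
        rw [add_mul, mul_add, (ha' w hw).1, (ha' w hw).2, (hb' w hw).1, (hb' w hw).2]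
        simp
      neg_mem' := by
        rintro a ⟨ha, ha'⟩
        refine ⟨Gen.neg ha, fun w hw => ?_⟩
        rw [neg_mul, mul_neg, (ha' w hw).1, (ha' w hw).2]
        simp }
  have hI : IsIdeal I := by
    rintro x ⟨hx, hx'⟩ c
    have key : ∀ w, Gen z w → as x w c = 0 := by
      intro w hw
      unfold as
      rw [(hx' w hw).1, zero_mul, (hx' _ (Gen.right c hw)).1, sub_zero]
    refine ⟨⟨Gen.left c hx, fun w hw => ?_⟩, ⟨Gen.right c hx, fun w hw => ?_⟩⟩
    · have k := key w hw
      constructor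
      · have e : as c x w = (c * x) * w - c * (x * w) := rfl
        rw [cyc' hA x w c, k, (hx' w hw).1, mul_zero, sub_zero] at e
        exact e.symm
      · have e : as w c x = (w * c) * x - w * (c * x) := rfl
        rw [cyc hA x w c, k, (hx' _ (Gen.right c hw)).2, zero_sub] at e
        exact neg_eq_zero.1 e.symm
    · have k := key w hw
      constructor
      · have e : as x c w = (x * c) * w - x * (c * w) := rfl
        rw [sw23 hA x w c, k, neg_zero, (hx' _ (Gen.left c hw)).1, sub_zero] at e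
        exact e.symm
      · have e : as w x c = (w * x) * c - w * (x * c) := rfl
        rw [sw12 hA x w c, k, neg_zero, (hx' w hw).2, zero_mul, zero_sub] at e
        exact neg_eq_zero.1 e.symm
  exact hS I hI (fun x hx y hy => (hx.2 y hy.1).1) v ⟨h1, h2⟩

/-- a semiprime alternative ring without elements of order `3` has no absolute zero divisors -/
theorem noAZD (hS : SemiPrime A) (h3 : ∀ x : A, x + x + x = 0 → x = 0) {z : A} (hz0 : z * z = 0)
    (hz : ∀ a, (z * a) * z = 0) : z = 0 := by
  have hz' : ∀ a, z * (a * z) = 0 := by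
    intro a
    have := as_m hA z a
    unfold as at this
    rw [hz, zero_sub, neg_eq_zero] at this
    exact this
  -- the derivations vanish
  have hd : ∀ u, u * z = 0 → z * u = 0 → ∀ c, (c * u) * z = 0 ∧ z * (u * c) = 0 := by
    intro u h1 h2 c
    have h : as u z c = 0 := by
      apply annJ hA hS (z := z)
      · rw [X1 hA h1]
        exact Gen.left _ Gen.base
      · intro w hw
        exact ann hA h3 hz0 hz h1 h2 hw c
    exact ⟨by rw [← X1 hA h1, h], by rw [← X2 hA h2, h]⟩
  have hQ : ∀ v, Gen z v → v * z = 0 ∧ z * v = 0 := by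
    intro v hv
    refine (genInd (fun v => v * z = 0 ∧ z * v = 0) (by simp) ?_ ?_ ⟨hz0, hz0⟩ ?_ ?_ ?_ hv).1
    · rintro v w ⟨a1, a2⟩ ⟨b1, b2⟩
      rw [add_mul, mul_add, a1, a2, b1, b2]; simp
    · rintro v ⟨a1, a2⟩
      rw [neg_mul, mul_neg, a1, a2]; simp
    · intro b
      exact ⟨hz b, by rw [← (hA z b).1, hz0, zero_mul]⟩
    · intro b
      exact ⟨by rw [(hA z b).2, hz0, mul_zero], hz' b⟩
    · intro v hr hl
      -- the products obtained from the derivations
      have g1 : ∀ a b, (a * (v * b)) * z = 0 := fun a b => (hd _ (hr b).1 (hr b).2 a).1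
      have g2 : ∀ a b, z * ((v * b) * a) = 0 := fun a b => (hd _ (hr b).1 (hr b).2 a).2
      have g3 : ∀ a b, (a * (b * v)) * z = 0 := fun a b => (hd _ (hl b).1 (hl b).2 a).1
      have g4 : ∀ a b, z * ((b * v) * a) = 0 := fun a b => (hd _ (hl b).1 (hl b).2 a).2
      have g5 : ∀ a b, ((v * b) * a) * z = 0 := by
        intro a b
        have e1 := sw13 hA v b a
        have e2 := cyc hA v b a
        have f1 := (hr (b * a)).1
        have f2 := (hl (b * a)).1
        have f3 := g3 b a
        linear_combination (norm := (simp only [as, mul_add, add_mul, mul_sub, sub_mul, mul_neg, neg_mul, mul_zero, zero_mul]; abel)) f1 + f2 - f3 - e2 * z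
      have g6 : ∀ a b, ((b * v) * a) * z = 0 := by
        intro a b
        have e1 := s12 hA b v a
        have f1 := (hr (b * a)).1
        have f2 := g5 a b
        have f3 := g1 b a
        linear_combination (norm := (simp only [as, mul_add, add_mul, mul_sub, sub_mul, mul_neg, neg_mul, mul_zero, zero_mul]; abel)) e1 * z + f1 - f2 + f3
      have g7 : ∀ a b, z * (a * (b * v)) = 0 := by
        intro a b
        have e2 := cyc hA v a b
        have f1 := (hr (a * b)).2
        have f2 := (hl (a * b)).2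
        have f3 := g2 b a
        linear_combination (norm := (simp only [as, mul_add, add_mul, mul_sub, sub_mul, mul_neg, neg_mul, mul_zero, zero_mul]; abel)) f1 + f2 - f3 - z * e2
      have g8 : ∀ a b, z * (a * (v * b)) = 0 := by
        intro a b
        have e1 := s12 hA a v b
        have f1 := (hr (a * b)).2
        have f2 := g2 b a
        have f3 := g4 b a
        linear_combination (norm := (simp only [as, mul_add, add_mul, mul_sub, sub_mul, mul_neg, neg_mul, mul_zero, zero_mul]; abel)) f3 + f2 - f1 - z * e1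
      intro a b
      exact ⟨⟨g5 a b, g2 a b⟩, ⟨g1 a b, g8 a b⟩, ⟨g6 a b, g4 a b⟩, ⟨g3 a b, g7 a b⟩⟩
  exact annJ hA hS Gen.base fun w hw => ⟨(hQ w hw).2, (hQ w hw).1⟩

end

end Pool.Agent.J6H59.CC
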