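import Pool.Agent.J6H59.CC.Alt2

/-!
# Alternative nil rings of bounded index have absolute zero divisors
-/

set_option autoImplicit false

namespace Pool.Agent.J6H59.CC

universe u

/-- the power `x ^ (n + 1)`, with `x ^ (m + 1) = x ^ m * x` -/
def Pw {A : Type*} [NonUnitalNonAssocRing A] (x : A) (n : ℕ) : A := (fun y => y * x)^[n] x

section
variable {A : Type*} [NonUnitalNonAssocRing A]

theorem pw_zero (x : A) : Pw x 0 = x := rfl

theorem pw_succ (x : A) (n : ℕ) : Pw x (n + 1) = Pw x n * x := by
  unfold Pw
  rw [Function.iterate_succ_apply']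

theorem pw_stay {x : A} {n : ℕ} (h : Pw x n = 0) (k : ℕ) : Pw x (n + k) = 0 := by
  induction k with
  | zero => exact h
  | succ k ih => rw [← add_assoc, pw_succ, ih, zero_mul]

theorem pw_map {B : Type*} [NonUnitalNonAssocRing B] (f : A → B) (hf : ∀ x y, f (x * y) = f x * f y)
    (x : A) (n : ℕ) : f (Pw x n) = Pw (f x) n := by
  induction n with
  | zero => rfl
  | succ n ih => rw [pw_succ, pw_succ, hf, ih]

theorem exists_quot {A : Type u} [NonUnitalNonAssocRing A] (K : AddSubgroup A) (hK : IsIdeal K) :
    ∃ (Q : Type u) (_ : NonUnitalNonAssocRing Q) (π : A → Q), Function.Surjective π ∧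
      (∀ x y, π (x + y) = π x + π y) ∧ (∀ x y, π (x * y) = π x * π y) ∧ (∀ x, π x = 0 ↔ x ∈ K) := by
  let I : TwoSidedIdeal A := TwoSidedIdeal.mk' (K : Set A) K.zero_mem (fun h1 h2 => K.add_mem h1 h2)
    (fun h => K.neg_mem h) (fun {x y} h => (hK y h x).1) (fun {x y} h => (hK x h y).2)
  refine ⟨I.ringCon.Quotient, inferInstance, fun x => (x : I.ringCon.Quotient), ?_, ?_, ?_, ?_⟩
  · intro q
    exact Quotient.inductionOn' q fun x => ⟨x, rfl⟩
  · intro x y; rfl
  · intro x y; rfl
  · intro x
    have h1 : ((x : I.ringCon.Quotient) = (0 : A)) ↔ I.ringCon x 0 := RingCon.eq _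
    have h2 : I.ringCon x 0 ↔ x - 0 ∈ I := TwoSidedIdeal.rel_iff _ _ _
    have h3 : x - 0 ∈ I ↔ x - 0 ∈ K := TwoSidedIdeal.mem_mk' _ _ _ _ _ _ _
    rw [sub_zero] at h2 h3
    exact (h1.trans h2).trans h3

variable (hA : Alternative A)
include hA

theorem as_pw (x : A) (i j : ℕ) : as (Pw x i) (Pw x j) x = 0 := by
  induction j generalizing i with
  | zero => exact as_r hA x (Pw x i)
  | succ j ih =>
    rw [pw_succ, ← cyc' hA (Pw x i) (Pw x j * x) x, sw23 hA x (Pw x j * x) (Pw x i), m2 hA,
      sw23 hA x (Pw x i) (Pw x j), cyc' hA (Pw x i) (Pw x j) x, ih]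
    simp

theorem pw_mul (x : A) (i j : ℕ) : Pw x i * Pw x j = Pw x (i + j + 1) := by
  induction j with
  | zero => rw [pw_succ]; rfl
  | succ j ih =>
    have h := as_pw hA x i j
    unfold as at h
    rw [sub_eq_zero] at h
    rw [pw_succ, ← h, ih, ← pw_succ]
    rfl

/-- powers in the homotope -/
def Qw (a x : A) : ℕ → A
  | 0 => x
  | n + 1 => (Qw a x n * a) * x

omit hA in
theorem qw_succ (a x : A) (n : ℕ) : Qw a x (n + 1) = (Qw a x n * a) * x := rfl

theorem as_qw (a x : A) (n : ℕ) : as a (Qw a x n) x = 0 := by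
  induction n with
  | zero => exact as_r hA x a
  | succ n ih =>
    rw [qw_succ]
    -- `(a, w x, x) = - x (x, w, a)`
    have h1 : as a ((Qw a x n * a) * x) x = - (x * as x (Qw a x n * a) a) := by
      rw [← m2 hA x (Qw a x n * a) a, sw13 hA a ((Qw a x n * a) * x) x, neg_neg]
    have h2 : as x (Qw a x n * a) a = - (a * as a (Qw a x n) x) := by
      rw [← m2 hA a (Qw a x n) x, sw13 hA a (Qw a x n * a) x]
    rw [h1, h2, ih]
    simp

theorem qw_mul (a x : A) (n : ℕ) : (Qw a x n * a) * (x * a) = Qw a x (n + 1) * a := by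
  have h : as (Qw a x n * a) x a = 0 := by
    rw [← cyc' hA (Qw a x n * a) x a, m2 hA, as_qw hA, mul_zero]
  unfold as at h
  rw [sub_eq_zero] at h
  exact h.symm

theorem pw_qw (a x : A) (n : ℕ) : Pw (x * a) n = Qw a x n * a := by
  induction n with
  | zero => rfl
  | succ n ih => rw [pw_succ, ih, qw_mul hA]

theorem pw_sum {a : A} (ha : a * a = 0) (x : A) (n : ℕ) :
    Pw (a + x * a) (n + 1) = Qw a x (n + 1) * a + (a * Qw a x n) * a := by
  have fl : ∀ y, (a * y) * a = a * (y * a) := fun y => sub_eq_zero.1 (as_m hA a y)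
  induction n with
  | zero =>
    rw [pw_succ, pw_zero, ← qw_mul hA]
    show (a + x * a) * (a + x * a) = (x * a) * (x * a) + (a * x) * a
    have e : (x * a) * a = 0 := by rw [(hA a x).2, ha, mul_zero]
    rw [fl, mul_add, add_mul, add_mul, ha, e]
    abel
  | succ n ih =>
    rw [pw_succ, ih, mul_add, add_mul, add_mul, qw_mul hA]
    have e1 : (Qw a x (n + 1) * a) * a = 0 := by rw [(hA a _).2, ha, mul_zero]
    have e2 : ((a * Qw a x n) * a) * a = 0 := by rw [(hA a _).2, ha, mul_zero]
    have e3 : ((a * Qw a x n) * a) * (x * a) = (a * Qw a x (n + 1)) * a := by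
      rw [fl, moufM hA, fl]
      rfl
    rw [e1, e2, e3]
    abel

theorem qw_zero_of_nil {n : ℕ} (hn : ∀ x : A, Pw x (n + 1) = 0) {a : A} (ha : a * a = 0) (x : A) :
    (a * Qw a x n) * a = 0 := by
  have h1 := pw_sum hA ha x n
  have h2 := pw_qw hA a x (n + 1)
  rw [hn] at h1 h2
  rw [← h2, zero_add] at h1
  exact h1.symm

end

/-- the homotope -/
def Ht (A : Type u) (_ : A) : Type u := A

section
variable {A : Type u} [NonUnitalNonAssocRing A]

instance (a : A) : AddCommGroup (Ht A a) := inferInstanceAs (AddCommGroup A)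

instance (a : A) : NonUnitalNonAssocRing (Ht A a) :=
  { (inferInstance : AddCommGroup (Ht A a)) with
    mul := fun x y => ((show A from x) * a) * (show A from y)
    left_distrib := fun x y z => by
      show ((show A from x) * a) * ((show A from y) + (show A from z)) = _
      rw [mul_add]; rfl
    right_distrib := fun x y z => by
      show (((show A from x) + (show A from y)) * a) * (show A from z) = _
      rw [add_mul, add_mul]; rfl
    zero_mul := fun x => by
      show ((0 : A) * a) * (show A from x) = 0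
      rw [zero_mul, zero_mul]
    mul_zero := fun x => by
      show ((show A from x) * a) * (0 : A) = 0
      rw [mul_zero] }

theorem ht_mul (a x y : A) : (show A from ((show Ht A a from x) * (show Ht A a from y))) =
    (x * a) * y := rfl

theorem ht_alt (hA : Alternative A) (a : A) : Alternative (Ht A a) := by
  intro x y
  have key : ∀ x y : A, ((((x * a) * x) * a) * y = (x * a) * ((x * a) * y)) ∧
      ((((y * a) * x) * a) * x = (y * a) * ((x * a) * x)) := by
    intro x y
    constructor
    · have h : ((x * a) * x) * a = (x * a) * (x * a) := by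
        have := as_m hA
        have h1 : as (x * a) x a = 0 := by
          rw [← cyc' hA (x * a) x a, m2 hA, as_r hA, mul_zero]
        exact sub_eq_zero.1 h1
      rw [h, (hA (x * a) y).1]
    · rw [moufR hA]
  exact key x y

/-- an element of the homotope as an element of the ring -/
def htOf {a : A} (x : Ht A a) : A := x

/-- an element of the ring as an element of the homotope -/
def htTo (a : A) (x : A) : Ht A a := x

theorem htOf_mul {a : A} (x y : Ht A a) : htOf (x * y) = (htOf x * a) * htOf y := rfl

theorem ht_pw (a : A) (x : Ht A a) (n : ℕ) : htOf (Pw x n) = Qw a (htOf x) n := by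
  induction n with
  | zero => rfl
  | succ n ih =>
    rw [pw_succ, htOf_mul, ih, qw_succ]

end

/-- a nonzero alternative ring which is nil of bounded index has a nonzero absolute zero divisor -/
theorem exists_azd (n : ℕ) : ∀ (A : Type u) [NonUnitalNonAssocRing A], Alternative A →
    (∀ x : A, Pw x n = 0) → (∃ x : A, x ≠ 0) → ∃ z : A, z ≠ 0 ∧ z * z = 0 ∧ ∀ a, (z * a) * z = 0 := by
  induction n with
  | zero =>
    intro A _ hA hn hne
    obtain ⟨x, hx⟩ := hne
    exact absurd (hn x) hx
  | succ n ih =>
    intro A _ hA hn hne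
    by_cases hall : ∀ x : A, Pw x n = 0
    · exact ih A hA hall hne
    push Not at hall
    obtain ⟨x, hx⟩ := hall
    have ha : Pw x n * Pw x n = 0 := by
      rw [pw_mul hA, show n + n + 1 = (n + 1) + n by omega]
      exact pw_stay (hn x) n
    revert ha hx
    generalize Pw x n = a
    intro ha0 ha
    have fl : ∀ y, (a * y) * a = a * (y * a) := fun y => sub_eq_zero.1 (as_m hA a y)
    -- the kernel
    let K : AddSubgroup (Ht A a) :=
      { carrier := {x | (a * (show A from x)) * a = 0}
        zero_mem' := by show (a * (0 : A)) * a = 0; rw [mul_zero, zero_mul]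
        add_mem' := by
          intro x y hx hy
          have hx' : (a * (show A from x)) * a = 0 := hx
          have hy' : (a * (show A from y)) * a = 0 := hy
          show (a * ((show A from x) + (show A from y))) * a = 0
          rw [mul_add, add_mul, hx', hy', add_zero]
        neg_mem' := by
          intro x hx
          have hx' : (a * (show A from x)) * a = 0 := hx
          show (a * (-(show A from x))) * a = 0
          rw [mul_neg, neg_mul, hx', neg_zero] }
    have hK : IsIdeal K := by
      have key : ∀ x c : A, (a * x) * a = 0 → (a * ((c * a) * x)) * a = 0 ∧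
          (a * ((x * a) * c)) * a = 0 := by
        intro x c hx
        constructor
        · rw [fl, ← moufM hA, ← fl, moufL hA, ← fl, hx, mul_zero, mul_zero]
        · rw [fl, ← moufM hA, ← fl, hx, zero_mul]
      intro x hx c
      exact key x c hx
    obtain ⟨Q, _, π, hπs, hπa, hπm, hπ0⟩ := exists_quot K hK
    have hQalt : Alternative Q := by
      intro x y
      obtain ⟨x, rfl⟩ := hπs x
      obtain ⟨y, rfl⟩ := hπs y
      have h := ht_alt hA a x y
      rw [← hπm, ← hπm, ← hπm, ← hπm, ← hπm, ← hπm, ← hπm, h.1, h.2]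
      exact ⟨rfl, rfl⟩
    have hQn : ∀ x : Q, Pw x n = 0 := by
      intro x
      obtain ⟨x, rfl⟩ := hπs x
      rw [← pw_map π hπm, hπ0]
      show (a * htOf (Pw x n)) * a = 0
      rw [ht_pw]
      exact qw_zero_of_nil hA hn ha (htOf x)
    by_cases hQ : ∃ x : Q, x ≠ 0
    · obtain ⟨w, hw0, hw1, hw2⟩ := ih Q hQalt hQn hQ
      obtain ⟨w, rfl⟩ := hπs w
      have hw0' : (a * htOf w) * a ≠ 0 := fun h => hw0 ((hπ0 w).2 h)
      have hw2' : ∀ x : A, (a * ((((htOf w * a) * x) * a) * htOf w)) * a = 0 := by
        intro x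
        have h := hw2 (π (htTo a x))
        rw [← hπm, ← hπm, hπ0] at h
        exact h
      revert hw0' hw2'
      generalize htOf w = w
      intro hw0' hw2'
      have flw : ∀ y, (w * y) * w = w * (y * w) := fun y => sub_eq_zero.1 (as_m hA w y)
      refine ⟨(a * w) * a, hw0', ?_, ?_⟩
      · rw [moufL hA, fl]
        have : a * (a * (w * a)) = 0 := by rw [← (hA a _).1, ha, zero_mul]
        rw [this, mul_zero, mul_zero]
      · intro x
        have h := hw2' x
        rw [moufR hA, fl, flw] at h
        rw [moufL hA, moufM hA, moufM hA]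
        exact h
    · push Not at hQ
      refine ⟨a, ha0, ha, fun x => ?_⟩
      exact (hπ0 (htTo a x)).1 (hQ _)

end Pool.Agent.J6H59.CC
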