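import Pool.Agent.J6H59.CC.Row

/-!
# The chain of orbits
-/

set_option autoImplicit false

namespace Pool.Agent.J6H59.CC

open Finset Equiv

/-- the automorphism group of the ring `C` has finitely many orbits on quadruples -/
def Olig (C : Type*) [NonUnitalNonAssocRing C] : Prop :=
  ∃ S : Finset (Fin 4 → C), ∀ v : Fin 4 → C, ∃ s ∈ S, ∃ g : C ≃+* C, ∀ i, g (s i) = v i

/-- invariant under all ring automorphisms -/
def IsChar {C : Type*} [NonUnitalNonAssocRing C] (I : AddSubgroup C) : Prop :=
  ∀ g : C ≃+* C, ∀ x ∈ I, g x ∈ I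

section
variable {C : Type*} [NonUnitalNonAssocRing C]

/-- elements of ideals with square in `J` -/
def US (J : AddSubgroup C) : Set C :=
  {u | ∃ I : AddSubgroup C, IsIdeal I ∧ (∀ x ∈ I, ∀ y ∈ I, x * y ∈ J) ∧ u ∈ I}

/-- long products of symmetrised values with `3k+4` rows give a long chain of definable subgroups -/
theorem chain {J : AddSubgroup C} (hJ : IsIdeal J) (hJc : IsChar J) {r : ℕ} (hr : 0 < r)
    (hS : SymJ J (r + 1)) (hO : Olig C)
    (hL : ∀ n : ℕ, ∃ (f : ℕ → (Fin r → C) → C) (R : ℕ → Fin r → C),
      (∀ m, Mon Finset.univ (f m)) ∧ (∀ m i, R m i ∈ US J) ∧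
      lprod (fun m => Ev (f m) (R m)) n ∉ J) : False := by
  classical
  obtain ⟨S, hSo⟩ := hO
  -- the number of rows
  obtain ⟨k, hk⟩ : ∃ k : ℕ, S.card < k := ⟨S.card + 1, by omega⟩
  obtain ⟨f, R, hf, hR, hne⟩ := hL (3 * k + 3)
  -- repeated rows
  have hrep : ∀ (n i j l : ℕ) (e : ℕ → C), i ≠ j → i ≤ n → j ≤ n → e i = Ev (f i) (R l) →
      e j = Ev (f j) (R l) → lprod e n ∈ J := by
    intro n i j l e hij hi hj h1 h2
    obtain ⟨I, hI, hIJ, hu⟩ := hR l ⟨0, hr⟩
    refine lprod_mem hI hJ hIJ hij hi hj e ?_ ?_
    · rw [h1]; exact Ev_mem hI (hf i) _ _ hu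
    · rw [h2]; exact Ev_mem hI (hf j) _ _ hu
  -- the labellings
  let b : ℕ → ℕ → ℕ := fun i m => if m < 3 * i then m else m + 3
  let b' : ℕ → ℕ → ℕ := fun i m => if m < 3 * i + 1 then m else m + 3
  let sq : (ℕ → ℕ) → C → C → C → ℕ → C := fun β x y z m =>
    if m ≤ 3 * k then Ev (f m) (R (β m)) else if m = 3 * k + 1 then x else
      if m = 3 * k + 2 then y else z
  let P : (ℕ → ℕ) → C := fun β => lprod (fun m => Ev (f m) (R (β m))) (3 * k)
  have hsq0 : ∀ β x y z, lprod (sq β x y z) (3 * k) = P β := by
    intro β x y z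
    apply lprod_congr
    intro m hm
    simp only [sq, if_pos hm]
  have hsq2 : ∀ β x y z, lprod (sq β x y z) (3 * k + 2) = (P β * x) * y := by
    intro β x y z
    show (lprod (sq β x y z) (3 * k) * sq β x y z (3 * k + 1)) * sq β x y z (3 * k + 2) = _
    rw [hsq0]
    simp [sq]
  have hsq3 : ∀ β x y z, lprod (sq β x y z) (3 * k + 3) = ((P β * x) * y) * z := by
    intro β x y z
    show lprod (sq β x y z) (3 * k + 2) * sq β x y z (3 * k + 3) = _
    rw [hsq2]
    simp [sq]
  let v : ℕ → C := fun l => Ev (f (3 * k + 1)) (R (3 * l))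
  let Q : ℕ → C := fun l => Ev (f (3 * k + 2)) (R (3 * l + 1))
  let Z : ℕ → C := fun l => Ev (f (3 * k + 3)) (R (3 * l + 2))
  let p : C := ∑ i ∈ Finset.range (k + 1), P (b i)
  let p' : C := ∑ i ∈ Finset.range (k + 1), P (b' i)
  let q : C := ∑ i ∈ Finset.range (k + 1), Q i
  -- expansion of products of sums modulo `J`
  have hexp : ∀ (β : ℕ → ℕ → ℕ) (x : C) (F : C → C) (hF : ∀ a b, F (a + b) = F a + F b) (l : ℕ),
      l ≤ k → (∀ i j, i ≤ k → j ≤ k → ¬ (i = l ∧ j = l) → F ((P (β i) * x) * Q j) ∈ J) →
      F (((∑ i ∈ Finset.range (k + 1), P (β i)) * x) * q) - F ((P (β l) * x) * Q l) ∈ J := by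
    intro β x F hF l hl h
    let Fh : C →+ C := AddMonoidHom.mk' F hF
    have hF' : ∀ a, F a = Fh a := fun a => rfl
    have e : F (((∑ i ∈ Finset.range (k + 1), P (β i)) * x) * q) =
        ∑ z ∈ Finset.range (k + 1) ×ˢ Finset.range (k + 1), F ((P (β z.1) * x) * Q z.2) := by
      simp only [hF', q]
      rw [Finset.sum_mul, Finset.sum_mul_sum, map_sum, Finset.sum_product]
      exact Finset.sum_congr rfl fun i _ => map_sum Fh _ _
    have hm : (l, l) ∈ Finset.range (k + 1) ×ˢ Finset.range (k + 1) := by
      simp; omega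
    rw [e, ← Finset.add_sum_erase _ _ hm, add_sub_cancel_left]
    refine J.sum_mem fun z hz => ?_
    obtain ⟨h1, h2⟩ := Finset.mem_erase.1 hz
    obtain ⟨h3, h4⟩ := Finset.mem_product.1 h2
    have h3' := Finset.mem_range.1 h3
    have h4' := Finset.mem_range.1 h4
    refine h z.1 z.2 (by omega) (by omega) fun hz' => h1 (Prod.ext hz'.1 hz'.2)
  -- the maps
  let α : C → C := fun x => (p * x) * q
  let β : C → C := fun x => (p' * x) * q
  have hα : ∀ l ≤ k, α (v l) - (P (b l) * v l) * Q l ∈ J := by
    intro l hl
    refine hexp b (v l) id (fun _ _ => rfl) l hl ?_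
    intro i j hi hj hij
    simp only [id]
    rw [← hsq2 (b i) (v l) (Q j) 0]
    by_cases hil : i = l
    · have hjl : j ≠ i := fun h => hij ⟨hil, h.trans hil⟩
      rcases lt_or_gt_of_ne hjl with h | h
      · refine hrep _ (3 * j + 1) (3 * k + 2) (3 * j + 1) _ (by omega) (by omega) (by omega) ?_ ?_
        · simp only [sq, b]
          rw [if_pos (by omega), if_pos (by omega)]
        · simp [sq, Q]
      · refine hrep _ (3 * j - 2) (3 * k + 2) (3 * j + 1) _ (by omega) (by omega) (by omega) ?_ ?_
        · simp only [sq, b]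
          rw [if_pos (by omega), if_neg (by omega)]
          congr 2
          omega
        · simp [sq, Q]
    · rcases lt_or_gt_of_ne hil with h | h
      · refine hrep _ (3 * l - 3) (3 * k + 1) (3 * l) _ (by omega) (by omega) (by omega) ?_ ?_
        · simp only [sq, b]
          rw [if_pos (by omega), if_neg (by omega)]
          congr 2
          omega
        · simp [sq, v]
      · refine hrep _ (3 * l) (3 * k + 1) (3 * l) _ (by omega) (by omega) (by omega) ?_ ?_
        · simp only [sq, b]
          rw [if_pos (by omega), if_pos (by omega)]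
        · simp [sq, v]
  have hβ : ∀ l ≤ k, β (v (l + 1)) - (P (b' l) * v (l + 1)) * Q l ∈ J := by
    intro l hl
    refine hexp b' (v (l + 1)) id (fun _ _ => rfl) l hl ?_
    intro i j hi hj hij
    simp only [id]
    rw [← hsq2 (b' i) (v (l + 1)) (Q j) 0]
    by_cases hil : i = l
    · have hjl : j ≠ i := fun h => hij ⟨hil, h.trans hil⟩
      rcases lt_or_gt_of_ne hjl with h | h
      · refine hrep _ (3 * j + 1) (3 * k + 2) (3 * j + 1) _ (by omega) (by omega) (by omega) ?_ ?_
        · simp only [sq, b']
          rw [if_pos (by omega), if_pos (by omega)]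
        · simp [sq, Q]
      · refine hrep _ (3 * j - 2) (3 * k + 2) (3 * j + 1) _ (by omega) (by omega) (by omega) ?_ ?_
        · simp only [sq, b']
          rw [if_pos (by omega), if_neg (by omega)]
          congr 2
          omega
        · simp [sq, Q]
    · rcases lt_or_gt_of_ne hil with h | h
      · refine hrep _ (3 * l) (3 * k + 1) (3 * l + 3) _ (by omega) (by omega) (by omega) ?_ ?_
        · simp only [sq, b']
          rw [if_pos (by omega), if_neg (by omega)]
        · simp [sq, v, mul_add]
      · refine hrep _ (3 * l + 3) (3 * k + 1) (3 * l + 3) _ (by omega) (by omega) (by omega) ?_ ?_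
        · simp only [sq, b']
          rw [if_pos (by omega), if_pos (by omega)]
        · simp [sq, v, mul_add]
  have hβ0 : β (v 0) ∈ J := by
    have e : β (v 0) = ∑ i ∈ Finset.range (k + 1), ∑ j ∈ Finset.range (k + 1),
        (P (b' i) * v 0) * Q j := by
      simp only [β, p', q]
      rw [Finset.sum_mul, Finset.sum_mul_sum]
    rw [e]
    refine J.sum_mem fun i hi => J.sum_mem fun j hj => ?_
    rw [← hsq2 (b' i) (v 0) (Q j) 0]
    refine hrep _ 0 (3 * k + 1) 0 _ (by omega) (by omega) (by omega) ?_ ?_
    · simp only [sq, b']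
      rw [if_pos (by omega), if_pos (by omega)]
    · simp [sq, v]
  have hζα : ∀ l ≤ k, ∀ x, α x * Z l - ((P (b l) * x) * Q l) * Z l ∈ J := by
    intro l hl x
    refine hexp b x (fun a => a * Z l) (fun _ _ => add_mul _ _ _) l hl ?_
    intro i j hi hj hij
    rw [← hsq3 (b i) x (Q j) (Z l)]
    by_cases hil : i = l
    · have hjl : j ≠ i := fun h => hij ⟨hil, h.trans hil⟩
      rcases lt_or_gt_of_ne hjl with h | h
      · refine hrep _ (3 * j + 1) (3 * k + 2) (3 * j + 1) _ (by omega) (by omega) (by omega) ?_ ?_
        · simp only [sq, b]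
          rw [if_pos (by omega), if_pos (by omega)]
        · simp [sq, Q]
      · refine hrep _ (3 * j - 2) (3 * k + 2) (3 * j + 1) _ (by omega) (by omega) (by omega) ?_ ?_
        · simp only [sq, b]
          rw [if_pos (by omega), if_neg (by omega)]
          congr 2
          omega
        · simp [sq, Q]
    · rcases lt_or_gt_of_ne hil with h | h
      · refine hrep _ (3 * l - 1) (3 * k + 3) (3 * l + 2) _ (by omega) (by omega) (by omega) ?_ ?_
        · simp only [sq, b]
          rw [if_pos (by omega), if_neg (by omega)]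
          congr 2
          omega
        · simp [sq, Z]
      · refine hrep _ (3 * l + 2) (3 * k + 3) (3 * l + 2) _ (by omega) (by omega) (by omega) ?_ ?_
        · simp only [sq, b]
          rw [if_pos (by omega), if_pos (by omega)]
        · simp [sq, Z]
  have hζβ : ∀ l ≤ k, ∀ x, β x * Z l - ((P (b' l) * x) * Q l) * Z l ∈ J := by
    intro l hl x
    refine hexp b' x (fun a => a * Z l) (fun _ _ => add_mul _ _ _) l hl ?_
    intro i j hi hj hij
    rw [← hsq3 (b' i) x (Q j) (Z l)]
    by_cases hil : i = l
    · have hjl : j ≠ i := fun h => hij ⟨hil, h.trans hil⟩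
      rcases lt_or_gt_of_ne hjl with h | h
      · refine hrep _ (3 * j + 1) (3 * k + 2) (3 * j + 1) _ (by omega) (by omega) (by omega) ?_ ?_
        · simp only [sq, b']
          rw [if_pos (by omega), if_pos (by omega)]
        · simp [sq, Q]
      · refine hrep _ (3 * j - 2) (3 * k + 2) (3 * j + 1) _ (by omega) (by omega) (by omega) ?_ ?_
        · simp only [sq, b']
          rw [if_pos (by omega), if_neg (by omega)]
          congr 2
          omega
        · simp [sq, Q]
    · rcases lt_or_gt_of_ne hil with h | h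
      · refine hrep _ (3 * l - 1) (3 * k + 3) (3 * l + 2) _ (by omega) (by omega) (by omega) ?_ ?_
        · simp only [sq, b']
          rw [if_pos (by omega), if_neg (by omega)]
          congr 2
          omega
        · simp [sq, Z]
      · refine hrep _ (3 * l + 2) (3 * k + 3) (3 * l + 2) _ (by omega) (by omega) (by omega) ?_ ?_
        · simp only [sq, b']
          rw [if_pos (by omega), if_pos (by omega)]
        · simp [sq, Z]
  -- equalities up to sign
  have hA4 : ∀ l ≤ k, PM J ((P (b l) * v l) * Q l) ((P (b' l) * v (l + 1)) * Q l) := by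
    intro l hl
    rw [← hsq2 (b l) (v l) (Q l) 0, ← hsq2 (b' l) (v (l + 1)) (Q l) 0]
    refine label_lprod hS (n := 3 * k + 2) (Finset.range (3 * k + 3))
      (fun m hm => by have := Finset.mem_range.1 hm; omega) hf R _ _
      (fun m => if m ≤ 3 * k then b l m else if m = 3 * k + 1 then 3 * l else 3 * l + 1)
      (fun m => if m ≤ 3 * k then b' l m else if m = 3 * k + 1 then 3 * l + 3 else 3 * l + 1)
      ?_ ?_ ?_ ((Finset.range (3 * k + 4)).erase (3 * l + 2)) ?_ ?_ ?_ ?_ ?_
    · intro m hm
      have hm' := Finset.mem_range.1 hm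
      by_cases h1 : m ≤ 3 * k
      · simp [sq, h1]
      · by_cases h2 : m = 3 * k + 1
        · subst h2; simp [sq, v]
        · have h3 : m = 3 * k + 2 := by omega
          subst h3; simp [sq, Q]
    · intro m hm
      have hm' := Finset.mem_range.1 hm
      by_cases h1 : m ≤ 3 * k
      · simp [sq, h1]
      · by_cases h2 : m = 3 * k + 1
        · subst h2; simp [sq, v, mul_add]
        · have h3 : m = 3 * k + 2 := by omega
          subst h3; simp [sq, Q]
    · intro m hm hm'
      exact absurd (Finset.mem_range.2 (by omega)) hm'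
    · rw [Finset.card_erase_of_mem (Finset.mem_range.2 (by omega))]
      simp
    · intro m hm
      have hm' := Finset.mem_range.1 hm
      rw [Finset.mem_erase, Finset.mem_range]
      simp only [b]
      split_ifs <;> omega
    · intro m hm
      have hm' := Finset.mem_range.1 hm
      rw [Finset.mem_erase, Finset.mem_range]
      simp only [b']
      split_ifs <;> omega
    · intro m hm m' hm' h
      have h1 := Finset.mem_range.1 hm
      have h2 := Finset.mem_range.1 hm'
      simp only [b] at h
      split_ifs at h <;> omega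
    · intro m hm m' hm' h
      have h1 := Finset.mem_range.1 hm
      have h2 := Finset.mem_range.1 hm'
      simp only [b'] at h
      split_ifs at h <;> omega
  have hZ3 : ∀ l, l + 1 ≤ k → ∀ x, PM J (((P (b (l + 1)) * x) * Q (l + 1)) * Z (l + 1))
      (((P (b' l) * x) * Q l) * Z l) := by
    intro l hl x
    rw [← hsq3 (b (l + 1)) x (Q (l + 1)) (Z (l + 1)), ← hsq3 (b' l) x (Q l) (Z l)]
    refine label_lprod hS (n := 3 * k + 3) ((Finset.range (3 * k + 4)).erase (3 * k + 1))
      (fun m hm => by have := Finset.mem_range.1 (Finset.mem_of_mem_erase hm); omega) hf R _ _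
      (fun m => if m ≤ 3 * k then b (l + 1) m else if m = 3 * k + 2 then 3 * l + 4 else 3 * l + 5)
      (fun m => if m ≤ 3 * k then b' l m else if m = 3 * k + 2 then 3 * l + 1 else 3 * l + 2)
      ?_ ?_ ?_ ((Finset.range (3 * k + 4)).erase (3 * l + 3)) ?_ ?_ ?_ ?_ ?_
    · intro m hm
      have hm' := Finset.mem_range.1 (Finset.mem_of_mem_erase hm)
      have hm2 := Finset.ne_of_mem_erase hm
      by_cases h1 : m ≤ 3 * k
      · simp [sq, h1]
      · by_cases h2 : m = 3 * k + 2
        · subst h2; simp [sq, Q, mul_add]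
        · have h3 : m = 3 * k + 3 := by omega
          subst h3; simp [sq, Z, mul_add]
    · intro m hm
      have hm' := Finset.mem_range.1 (Finset.mem_of_mem_erase hm)
      have hm2 := Finset.ne_of_mem_erase hm
      by_cases h1 : m ≤ 3 * k
      · simp [sq, h1]
      · by_cases h2 : m = 3 * k + 2
        · subst h2; simp [sq, Q]
        · have h3 : m = 3 * k + 3 := by omega
          subst h3; simp [sq, Z]
    · intro m hm hm'
      have h3 : m = 3 * k + 1 := by
        by_contra h3
        exact hm' (Finset.mem_erase.2 ⟨h3, Finset.mem_range.2 (by omega)⟩)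
      subst h3
      simp [sq]
    · rw [Finset.card_erase_of_mem (Finset.mem_range.2 (by omega)),
        Finset.card_erase_of_mem (Finset.mem_range.2 (by omega))]
    · intro m hm
      have hm' := Finset.mem_range.1 (Finset.mem_of_mem_erase hm)
      have hm2 := Finset.ne_of_mem_erase hm
      rw [Finset.mem_erase, Finset.mem_range]
      simp only [b]
      split_ifs <;> omega
    · intro m hm
      have hm' := Finset.mem_range.1 (Finset.mem_of_mem_erase hm)
      have hm2 := Finset.ne_of_mem_erase hm
      rw [Finset.mem_erase, Finset.mem_range]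
      simp only [b']
      split_ifs <;> omega
    · intro m hm m' hm' h
      have h1 := Finset.mem_range.1 (Finset.mem_of_mem_erase hm)
      have h2 := Finset.mem_range.1 (Finset.mem_of_mem_erase hm')
      have h3 := Finset.ne_of_mem_erase hm
      have h4 := Finset.ne_of_mem_erase hm'
      simp only [b] at h
      split_ifs at h <;> omega
    · intro m hm m' hm' h
      have h1 := Finset.mem_range.1 (Finset.mem_of_mem_erase hm)
      have h2 := Finset.mem_range.1 (Finset.mem_of_mem_erase hm')
      have h3 := Finset.ne_of_mem_erase hm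
      have h4 := Finset.ne_of_mem_erase hm'
      simp only [b'] at h
      split_ifs at h <;> omega
  have hZ4 : ∀ l ≤ k, ((P (b l) * v l) * Q l) * Z l ∉ J := by
    intro l hl hmem
    apply hne
    refine PM.mem (b := ((P (b l) * v l) * Q l) * Z l) ?_ hmem
    rw [← hsq3 (b l) (v l) (Q l) (Z l)]
    refine label_lprod hS (n := 3 * k + 3) (Finset.range (3 * k + 4))
      (fun m hm => by have := Finset.mem_range.1 hm; omega) hf R _ _
      (fun m => m)
      (fun m => if m ≤ 3 * k then b l m else if m = 3 * k + 1 then 3 * l else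
        if m = 3 * k + 2 then 3 * l + 1 else 3 * l + 2)
      ?_ ?_ ?_ (Finset.range (3 * k + 4)) ?_ ?_ ?_ ?_ ?_
    · intro m hm
      rfl
    · intro m hm
      have hm' := Finset.mem_range.1 hm
      by_cases h1 : m ≤ 3 * k
      · simp [sq, h1]
      · by_cases h2 : m = 3 * k + 1
        · subst h2; simp [sq, v]
        · by_cases h3 : m = 3 * k + 2
          · subst h3; simp [sq, Q]
          · have h4 : m = 3 * k + 3 := by omega
            subst h4; simp [sq, Z]
    · intro m hm hm'
      exact absurd (Finset.mem_range.2 (by omega)) hm'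
    · rfl
    · intro m hm
      exact hm
    · intro m hm
      have hm' := Finset.mem_range.1 hm
      rw [Finset.mem_range]
      simp only [b]
      split_ifs <;> omega
    · intro m hm m' hm' h
      exact h
    · intro m hm m' hm' h
      have h1 := Finset.mem_range.1 hm
      have h2 := Finset.mem_range.1 hm'
      simp only [b] at h
      split_ifs at h <;> omega
  -- the chain
  let D : ℕ → C → Prop := fun j => Nat.rec (fun x => β x ∈ J)
    (fun _ D' x => ∃ u, D' u ∧ α u - β x ∈ J) j
  have hD0 : ∀ x, D 0 x ↔ β x ∈ J := fun x => Iff.rfl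
  have hDs : ∀ j x, D (j + 1) x ↔ ∃ u, D j u ∧ α u - β x ∈ J := fun j x => Iff.rfl
  have hαneg : ∀ x, α (-x) = - α x := fun x => by simp [α]
  have hβneg : ∀ x, β (-x) = - β x := fun x => by simp [β]
  have hDneg : ∀ j x, D j x → D j (-x) := by
    intro j
    induction j with
    | zero => intro x hx; rw [hD0] at hx ⊢; rw [hβneg]; exact J.neg_mem hx
    | succ j ih =>
      intro x hx
      rw [hDs] at hx ⊢
      obtain ⟨u, hu, h⟩ := hx
      refine ⟨-u, ih u hu, ?_⟩
      rw [hαneg, hβneg]
      have := J.neg_mem h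
      have e : -(α u - β x) = -α u - -β x := by abel
      rwa [e] at this
  have hDmono : ∀ j x, D j x → D (j + 1) x := by
    intro j
    induction j with
    | zero =>
      intro x hx
      rw [hDs]
      refine ⟨0, ?_, ?_⟩
      · rw [hD0]; simp [β]
      · rw [hD0] at hx
        simp only [α, mul_zero, zero_mul, zero_sub]
        exact J.neg_mem hx
    | succ j ih =>
      intro x hx
      rw [hDs] at hx
      obtain ⟨u, hu, h⟩ := hx
      exact (hDs (j + 1) x).2 ⟨u, ih u hu, h⟩
  have hDle : ∀ i j, i ≤ j → ∀ x, D i x → D j x := by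
    intro i j hij
    induction hij with
    | refl => intro x hx; exact hx
    | step _ ih => intro x hx; exact hDmono _ x (ih x hx)
  -- the elements `v j`
  have hvD : ∀ j ≤ k + 1, D j (v j) := by
    intro j
    induction j with
    | zero => intro _; rw [hD0]; exact hβ0
    | succ j ih =>
      intro hj
      have h1 := ih (by omega)
      have h2 := hα j (by omega)
      have h3 := hβ j (by omega)
      rw [hDs]
      rcases hA4 j (by omega) with h4 | h4
      · refine ⟨v j, h1, ?_⟩
        have h5 := J.add_mem (J.sub_mem h2 h3) h4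
        have e : α (v j) - P (b j) * v j * Q j - (β (v (j + 1)) - P (b' j) * v (j + 1) * Q j) +
            (P (b j) * v j * Q j - P (b' j) * v (j + 1) * Q j) = α (v j) - β (v (j + 1)) := by
          abel
        rwa [e] at h5
      · refine ⟨-v j, hDneg _ _ h1, ?_⟩
        rw [hαneg]
        have h5 := J.neg_mem (J.add_mem (J.add_mem h2 h3) h4)
        have e : -(α (v j) - P (b j) * v j * Q j + (β (v (j + 1)) - P (b' j) * v (j + 1) * Q j) +
            (P (b j) * v j * Q j + P (b' j) * v (j + 1) * Q j)) = - α (v j) - β (v (j + 1)) := by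
          abel
        rwa [e] at h5
  have hDζ : ∀ j, j + 1 ≤ k → ∀ x, D j x → α x * Z (j + 1) ∈ J := by
    -- from `β x * Z j ∈ J` to `α x * Z (j+1) ∈ J`
    have hstep : ∀ j, j + 1 ≤ k → ∀ x, β x * Z j ∈ J → α x * Z (j + 1) ∈ J := by
      intro j hj x hx
      have h1 := hζα (j + 1) hj x
      have h2 := hζβ j (by omega) x
      have h3 : P (b' j) * x * Q j * Z j ∈ J := by
        have := J.sub_mem hx h2
        rwa [sub_sub_cancel] at this
      have h4 := PM.mem (hZ3 j hj x) h3
      have := J.add_mem h1 h4
      rwa [sub_add_cancel] at this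
    intro j
    induction j with
    | zero =>
      intro hj x hx
      rw [hD0] at hx
      exact hstep 0 hj x (hJ _ hx _).2
    | succ j ih =>
      intro hj x hx
      rw [hDs] at hx
      obtain ⟨u, hu, h⟩ := hx
      have h1 := ih (by omega) u hu
      have h2 : (α u - β x) * Z (j + 1) ∈ J := (hJ _ h _).2
      apply hstep (j + 1) hj x
      rw [sub_mul] at h2
      have := J.sub_mem h1 h2
      rwa [sub_sub_cancel] at this
  have hvnD : ∀ j, j + 1 ≤ k → ¬ D j (v (j + 1)) := by
    intro j hj hD
    have h1 := hDζ j hj _ hD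
    have h2 := hζα (j + 1) hj (v (j + 1))
    apply hZ4 (j + 1) hj
    have := J.sub_mem h1 h2
    rwa [sub_sub_cancel] at this
  -- invariance
  have hDinv : ∀ g : C ≃+* C, g p = p → g p' = p' → g q = q → ∀ j x, D j x → D j (g x) := by
    intro g h1 h2 h3
    have hαg : ∀ x, α (g x) = g (α x) := by
      intro x
      simp only [α, map_mul, h1, h3]
    have hβg : ∀ x, β (g x) = g (β x) := by
      intro x
      simp only [β, map_mul, h2, h3]
    intro j
    induction j with
    | zero =>
      intro x hx
      rw [hD0] at hx ⊢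
      rw [hβg]
      exact hJc g _ hx
    | succ j ih =>
      intro x hx
      rw [hDs] at hx ⊢
      obtain ⟨u, hu, h⟩ := hx
      refine ⟨g u, ih u hu, ?_⟩
      rw [hαg, hβg, ← map_sub]
      exact hJc g _ h
  -- pigeonhole
  let w : Fin k → Fin 4 → C := fun j => ![p, p', q, v (j + 1)]
  have hw : ∀ j : Fin k, ∃ s : Fin 4 → C, s ∈ S ∧ ∃ g : C ≃+* C, ∀ i, g (s i) = w j i := by
    intro j
    obtain ⟨s, hs, g, hg⟩ := hSo (w j)
    exact ⟨s, hs, g, hg⟩
  choose s hs g hg using hw
  obtain ⟨i, j, hij, he⟩ : ∃ i j : Fin k, i < j ∧ s i = s j := by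
    have hc : S.card < (Finset.univ : Finset (Fin k)).card := by simpa using hk
    obtain ⟨i, -, j, -, hne', he⟩ :=
      Finset.exists_ne_map_eq_of_card_lt_of_maps_to hc (fun j _ => hs j)
    rcases lt_or_gt_of_ne hne' with h | h
    · exact ⟨i, j, h, he⟩
    · exact ⟨j, i, h, he.symm⟩
  let h : C ≃+* C := (g i).symm.trans (g j)
  have hh : ∀ a, h (w i a) = w j a := by
    intro a
    show g j ((g i).symm (w i a)) = w j a
    rw [← hg i a, RingEquiv.symm_apply_apply, he, hg j a]
  have h1 : h p = p := hh 0
  have h2 : h p' = p' := hh 1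
  have h3 : h q = q := hh 2
  have h4 : h (v (i + 1)) = v (j + 1) := hh 3
  have h5 := hDinv h h1 h2 h3 (i + 1) _ (hvD (i + 1) (by omega))
  rw [h4] at h5
  have hij' : (i : ℕ) + 1 ≤ j := hij
  have h6 := hDle (i + 1) j hij' _ h5
  exact hvnD j (by omega) h6

end

end Pool.Agent.J6H59.CC
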