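import Pool.Agent.J6H59.CC.Chain

/-!
# A ring with finitely many orbits on tuples, spanned by ideals of square zero, is not perfect
-/

set_option autoImplicit false

namespace Pool.Agent.J6H59.CC

open Finset Equiv

section
variable {C : Type*} [NonUnitalNonAssocRing C]

/-- a monomial as a multilinear map -/
def Mon.toMul {ι : Type} [d : DecidableEq ι] [Fintype ι] {f : (ι → C) → C} (h : Mon Finset.univ f) :
    MultilinearMap ℤ (fun _ : ι => C) C where
  toFun := f
  map_update_add' := by
    intro inst m i x y
    have e : inst = d := Subsingleton.elim _ _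
    subst e
    exact h.add i (Finset.mem_univ _) m x y
  map_update_smul' := by
    intro inst m i c x
    have e : inst = d := Subsingleton.elim _ _
    subst e
    let φ : C →+ C := AddMonoidHom.mk' (fun a => f (Function.update m i a))
      (h.add i (Finset.mem_univ _) m)
    exact map_zsmul φ c x

theorem mul_mem_of (s t : Set C) (X : AddSubgroup C) (h : ∀ x ∈ s, ∀ y ∈ t, x * y ∈ X) :
    ∀ x ∈ AddSubgroup.closure s, ∀ y ∈ AddSubgroup.closure t, x * y ∈ X := by
  intro x hx
  induction hx using AddSubgroup.closure_induction with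
  | mem x hx =>
    intro y hy
    induction hy using AddSubgroup.closure_induction with
    | mem y hy => exact h x hx y hy
    | zero => rw [mul_zero]; exact X.zero_mem
    | add a b _ _ ha hb => rw [mul_add]; exact X.add_mem ha hb
    | neg a _ ha => rw [mul_neg]; exact X.neg_mem ha
  | zero => intro y _; rw [zero_mul]; exact X.zero_mem
  | add a b _ _ ha hb => intro y hy; rw [add_mul]; exact X.add_mem (ha y hy) (hb y hy)
  | neg a _ ha => intro y hy; rw [neg_mul]; exact X.neg_mem (ha y hy)

theorem isIdeal_closure (s : Set C) (h : ∀ x ∈ s, ∀ c, c * x ∈ AddSubgroup.closure s ∧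
    x * c ∈ AddSubgroup.closure s) : IsIdeal (AddSubgroup.closure s) := by
  intro x hx c
  induction hx using AddSubgroup.closure_induction with
  | mem x hx => exact h x hx c
  | zero => rw [zero_mul, mul_zero]; exact ⟨AddSubgroup.zero_mem _, AddSubgroup.zero_mem _⟩
  | add a b _ _ ha hb =>
    rw [mul_add, add_mul]
    exact ⟨AddSubgroup.add_mem _ ha.1 hb.1, AddSubgroup.add_mem _ ha.2 hb.2⟩
  | neg a _ ha =>
    rw [mul_neg, neg_mul]
    exact ⟨AddSubgroup.neg_mem _ ha.1, AddSubgroup.neg_mem _ ha.2⟩

theorem isChar_closure (s : Set C) (h : ∀ g : C ≃+* C, ∀ x ∈ s, g x ∈ AddSubgroup.closure s) :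
    IsChar (AddSubgroup.closure s) := by
  intro g x hx
  induction hx using AddSubgroup.closure_induction with
  | mem x hx => exact h g x hx
  | zero => rw [map_zero]; exact AddSubgroup.zero_mem _
  | add a b _ _ ha hb => rw [map_add]; exact AddSubgroup.add_mem _ ha hb
  | neg a _ ha => rw [map_neg]; exact AddSubgroup.neg_mem _ ha

theorem IsIdeal.map {I : AddSubgroup C} (hI : IsIdeal I) (g : C ≃+* C) :
    IsIdeal (I.map (g : C →+ C)) := by
  rintro _ ⟨x, hx, rfl⟩ c
  constructor
  · refine ⟨g.symm c * x, (hI x hx _).1, ?_⟩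
    show g (g.symm c * x) = c * g x
    rw [map_mul, RingEquiv.apply_symm_apply]
  · refine ⟨x * g.symm c, (hI x hx _).2, ?_⟩
    show g (x * g.symm c) = g x * c
    rw [map_mul, RingEquiv.apply_symm_apply]

theorem US_map {J : AddSubgroup C} (hJc : IsChar J) (g : C ≃+* C) {u : C} (hu : u ∈ US J) :
    g u ∈ US J := by
  obtain ⟨I, hI, hIJ, hu⟩ := hu
  refine ⟨I.map (g : C →+ C), hI.map g, ?_, ⟨u, hu, rfl⟩⟩
  rintro _ ⟨x, hx, rfl⟩ _ ⟨y, hy, rfl⟩
  have : g x * g y ∈ J := by
    rw [← map_mul]
    exact hJc g _ (hIJ x hx y hy)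
  exact this

/-- the main step -/
theorem core (hO : Olig C) (hC : AddSubgroup.closure {z : C | ∃ x y, x * y = z} = ⊤)
    (J : AddSubgroup C) (hJ : IsIdeal J) (hJc : IsChar J) (hJt : J ≠ ⊤)
    (hmax : ∀ I : AddSubgroup C, IsIdeal I → IsChar I → J ≤ I → I ≠ J → I = ⊤)
    (I0 : AddSubgroup C) (hI0 : IsIdeal I0) (hI0J : ¬ I0 ≤ J)
    (hsq : ∀ x ∈ I0, ∀ y ∈ I0, x * y ∈ J) : False := by
  classical
  -- the set `U` spans
  have hU : AddSubgroup.closure (US J) = ⊤ := by
    have h1 : IsIdeal (AddSubgroup.closure (US J)) := by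
      apply isIdeal_closure
      rintro x ⟨I, hI, hIJ, hx⟩ c
      exact ⟨AddSubgroup.subset_closure ⟨I, hI, hIJ, (hI x hx c).1⟩,
        AddSubgroup.subset_closure ⟨I, hI, hIJ, (hI x hx c).2⟩⟩
    have h2 : IsChar (AddSubgroup.closure (US J)) := by
      apply isChar_closure
      intro g x hx
      exact AddSubgroup.subset_closure (US_map hJc g hx)
    have h3 : J ≤ AddSubgroup.closure (US J) := by
      intro x hx
      exact AddSubgroup.subset_closure ⟨J, hJ, fun a ha b _ => (hJ a ha b).2, hx⟩
    refine hmax _ h1 h2 h3 ?_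
    intro h4
    apply hI0J
    intro x hx
    rw [← h4]
    exact AddSubgroup.subset_closure ⟨I0, hI0, hsq, hx⟩
  -- every element is strongly nilpotent modulo `J`
  let Zn : ℕ → C → Prop := fun N x => ∀ n, N ≤ n → ∀ f : (Fin n → C) → C,
    Mon Finset.univ f → f (fun _ => x) ∈ J
  have hfin : ∀ x : C, ∃ (N : ℕ) (u : Fin N → C), (∀ b, u b ∈ US J) ∧ x = ∑ b, u b := by
    intro x
    have hx : x ∈ AddSubgroup.closure (US J) := by rw [hU]; exact AddSubgroup.mem_top x
    induction hx using AddSubgroup.closure_induction with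
    | mem x hx => exact ⟨1, fun _ => x, fun _ => hx, by simp⟩
    | zero => exact ⟨0, fun _ => 0, fun b => b.elim0, by simp⟩
    | add a b _ _ ha hb =>
      obtain ⟨N, u, h1, rfl⟩ := ha
      obtain ⟨M, w, h2, rfl⟩ := hb
      refine ⟨N + M, Fin.append u w, ?_, ?_⟩
      · intro b
        refine Fin.addCases (fun i => ?_) (fun i => ?_) b
        · rw [Fin.append_left]; exact h1 i
        · rw [Fin.append_right]; exact h2 i
      · rw [Fin.sum_univ_add]
        simp
    | neg a _ ha =>
      obtain ⟨N, u, h1, rfl⟩ := ha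
      refine ⟨N, fun b => - u b, ?_, by simp⟩
      intro b
      obtain ⟨I, hI, hIJ, hb⟩ := h1 b
      exact ⟨I, hI, hIJ, I.neg_mem hb⟩
  have hZx : ∀ x : C, ∃ N, Zn N x := by
    intro x
    obtain ⟨N, u, hu, rfl⟩ := hfin x
    refine ⟨N + 1, ?_⟩
    intro n hn f hf
    have e : f (fun _ => ∑ b, u b) = ∑ φ : Fin n → Fin N, f (fun i => u (φ i)) := by
      have := (hf.toMul).map_sum (fun (_ : Fin n) (b : Fin N) => u b)
      exact this
    rw [e]
    refine J.sum_mem fun φ _ => ?_
    obtain ⟨i, j, hij, he⟩ := Fintype.exists_ne_map_eq_of_card_lt φ (by simp; omega)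
    obtain ⟨I, hI, hIJ, hb⟩ := hu (φ i)
    refine hf.mem2 hI hJ hIJ i (Finset.mem_univ _) j (Finset.mem_univ _) hij _ hb ?_
    show u (φ j) ∈ I
    rw [← he]
    exact hb
  obtain ⟨N, hN⟩ : ∃ N, ∀ x, Zn N x := by
    obtain ⟨S, hS⟩ := hO
    choose N hN using hZx
    refine ⟨S.sup (fun s => N (s 0)), ?_⟩
    intro x n hn f hf
    obtain ⟨s, hs, g, hg⟩ := hS (fun _ => x)
    obtain ⟨f', hf', he⟩ := hf.aut g.symm (fun a b => map_mul g.symm a b)
    have h1 : f' (fun _ => s 0) ∈ J :=
      hN (s 0) n (le_trans (Finset.le_sup (f := fun s => N (s 0)) hs) hn) f' hf'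
    have h2 : g.symm (f fun _ => x) = f' (fun _ => s 0) := by
      rw [he]
      congr 1
      funext i
      rw [← hg 0, RingEquiv.symm_apply_apply]
    rw [← h2] at h1
    have := hJc g _ h1
    rwa [RingEquiv.apply_symm_apply] at this
  -- symmetrised values
  have hSym : SymJ J N := by
    intro f hf
    apply multi_mem (Ev f) (fun V i a b => Ev_add hf V i a b) (US J) hU J
    intro V hV
    have h1 := hN (∑ b, V b) N le_rfl f hf
    have e : f (fun _ => ∑ b, V b) = ∑ φ : Fin N → Fin N, f (fun i => V (φ i)) := by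
      have := (hf.toMul).map_sum (fun (_ : Fin N) (b : Fin N) => V b)
      exact this
    rw [e] at h1
    have h2 : ∑ φ : Fin N → Fin N, f (fun i => V (φ i)) - Ev f V ∈ J := by
      have e2 : Ev f V = ∑ φ ∈ Finset.univ.filter (fun φ : Fin N → Fin N => Function.Injective φ),
          f (fun i => V (φ i)) := by
        unfold Ev
        refine Finset.sum_bij (fun (σ : Perm (Fin N)) _ => (σ : Fin N → Fin N)) ?_ ?_ ?_ ?_
        · intro σ _
          simp [σ.injective]
        · intro σ _ τ _ h
          exact DFunLike.coe_injective h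
        · intro φ hφ
          simp only [Finset.mem_filter, Finset.mem_univ, true_and] at hφ
          exact ⟨Equiv.ofBijective φ (Finite.injective_iff_bijective.1 hφ), Finset.mem_univ _, rfl⟩
        · intro σ _
          rfl
      rw [e2, ← Finset.sum_filter_add_sum_filter_not Finset.univ
        (fun φ : Fin N → Fin N => Function.Injective φ), add_sub_cancel_left]
      refine J.sum_mem fun φ hφ => ?_
      simp only [Finset.mem_filter, Finset.mem_univ, true_and] at hφ
      have hφ' : ∃ i j, φ i = φ j ∧ i ≠ j := by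
        simpa [Function.Injective] using hφ
      obtain ⟨i, j, he, hij⟩ := hφ'
      obtain ⟨I, hI, hIJ, hb⟩ := hV (φ i)
      refine hf.mem2 hI hJ hIJ i (Finset.mem_univ _) j (Finset.mem_univ _) hij _ hb ?_
      show V (φ j) ∈ I
      rw [← he]
      exact hb
    have := J.sub_mem h1 h2
    rwa [sub_sub_cancel] at this
  -- the least number of symmetrised variables
  obtain ⟨r, hr, hr1, hr2⟩ : ∃ r, 0 < r ∧ SymJ J (r + 1) ∧ ¬ SymJ J r := by
    have hex : ∃ n, SymJ J n := ⟨N, hSym⟩
    have h0 : ¬ SymJ J 0 := by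
      intro h
      apply hJt
      rw [eq_top_iff]
      intro c _
      have h1 := h (fun _ => c) (by
        have := Mon.gap (C := C) (ι := Fin 0) c
        convert this using 1
        exact Finset.univ_eq_empty) (fun i => i.elim0)
      simpa [Ev] using h1
    have h1 : ¬ SymJ J 1 := by
      intro h
      apply hJt
      rw [eq_top_iff]
      intro c _
      have h1 := h (fun x => x 0) (by
        have := Mon.leaf (C := C) (0 : Fin 1)
        convert this using 1
        ext i
        simp [Subsingleton.elim i 0]) (fun _ => c)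
      simpa [Ev] using h1
    have hf := Nat.find_spec hex
    have hm : ∀ m < Nat.find hex, ¬ SymJ J m := fun m hm => Nat.find_min hex hm
    have h2 : Nat.find hex ≠ 0 := fun h => h0 (h ▸ hf)
    have h3 : Nat.find hex ≠ 1 := fun h => h1 (h ▸ hf)
    refine ⟨Nat.find hex - 1, by omega, ?_, hm _ (by omega)⟩
    have : Nat.find hex - 1 + 1 = Nat.find hex := by omega
    rw [this]
    exact hf
  -- values with rows in `U`
  let EU : Set C := {a | ∃ (f : (Fin r → C) → C) (V : Fin r → C), Mon Finset.univ f ∧
    (∀ i, V i ∈ US J) ∧ a = Ev f V}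
  let EA : Set C := {a | (∃ (f : (Fin r → C) → C) (V : Fin r → C), Mon Finset.univ f ∧
    a = Ev f V) ∨ a ∈ J}
  have hEA : AddSubgroup.closure EA = ⊤ := by
    have h1 : IsIdeal (AddSubgroup.closure EA) := by
      apply isIdeal_closure
      rintro x (⟨f, V, hf, rfl⟩ | hx) c
      · constructor
        · apply AddSubgroup.subset_closure
          refine Or.inl ⟨fun x => c * f x, V, ?_, ?_⟩
          · have := Mon.mul (Mon.gap c) hf (Finset.disjoint_empty_left _)
            rwa [Finset.empty_union] at this
          · simp [Ev, Finset.mul_sum]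
        · apply AddSubgroup.subset_closure
          refine Or.inl ⟨fun x => f x * c, V, ?_, ?_⟩
          · have := Mon.mul hf (Mon.gap c) (Finset.disjoint_empty_right _)
            rwa [Finset.union_empty] at this
          · simp [Ev, Finset.sum_mul]
      · exact ⟨AddSubgroup.subset_closure (Or.inr (hJ x hx c).1),
          AddSubgroup.subset_closure (Or.inr (hJ x hx c).2)⟩
    have h2 : IsChar (AddSubgroup.closure EA) := by
      apply isChar_closure
      rintro g x (⟨f, V, hf, rfl⟩ | hx)
      · apply AddSubgroup.subset_closure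
        obtain ⟨f', hf', he⟩ := hf.aut g (fun a b => map_mul g a b)
        refine Or.inl ⟨f', fun i => g (V i), hf', ?_⟩
        simp only [Ev, map_sum, he]
        rfl
      · exact AddSubgroup.subset_closure (Or.inr (hJc g x hx))
    have h3 : J ≤ AddSubgroup.closure EA := fun x hx => AddSubgroup.subset_closure (Or.inr hx)
    refine hmax _ h1 h2 h3 ?_
    intro h4
    apply hr2
    intro f hf V
    rw [← h4]
    exact AddSubgroup.subset_closure (Or.inl ⟨f, V, hf, rfl⟩)
  have hEU : AddSubgroup.closure (EU ∪ (J : Set C)) = ⊤ := by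
    rw [eq_top_iff, ← hEA, AddSubgroup.closure_le]
    rintro x (⟨f, V, hf, rfl⟩ | hx)
    · apply multi_mem (Ev f) (fun V i a b => Ev_add hf V i a b) (US J) hU
      intro V hV
      exact AddSubgroup.subset_closure (Or.inl ⟨f, V, hf, hV, rfl⟩)
    · exact AddSubgroup.subset_closure (Or.inr hx)
  -- long products
  have hX : ∀ n : ℕ, AddSubgroup.closure ({a | ∃ e : ℕ → C, (∀ m, e m ∈ EU) ∧ a = lprod e n} ∪
      (J : Set C)) = ⊤ := by
    intro n
    induction n with
    | zero =>
      rw [eq_top_iff, ← hEU, AddSubgroup.closure_le]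
      rintro x (hx | hx)
      · exact AddSubgroup.subset_closure (Or.inl ⟨fun _ => x, fun _ => hx, rfl⟩)
      · exact AddSubgroup.subset_closure (Or.inr hx)
    | succ n ih =>
      rw [eq_top_iff, ← hC, AddSubgroup.closure_le]
      rintro _ ⟨x, y, rfl⟩
      refine mul_mem_of _ _ _ ?_ x (by rw [ih]; exact AddSubgroup.mem_top x) y
        (by rw [hEU]; exact AddSubgroup.mem_top y)
      rintro x (⟨e, he, rfl⟩ | hx) y (hy | hy)
      · apply AddSubgroup.subset_closure
        refine Or.inl ⟨Function.update e (n + 1) y, ?_, ?_⟩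
        · intro m
          by_cases hm : m = n + 1
          · subst hm; simpa using hy
          · rw [Function.update_of_ne hm]; exact he m
        · show lprod e n * y = lprod (Function.update e (n + 1) y) n *
            Function.update e (n + 1) y (n + 1)
          rw [Function.update_self]
          congr 1
          apply lprod_congr
          intro m hm
          rw [Function.update_of_ne (by omega)]
      · exact AddSubgroup.subset_closure (Or.inr (hJ y hy _).1)
      · exact AddSubgroup.subset_closure (Or.inr (hJ x hx _).2)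
      · exact AddSubgroup.subset_closure (Or.inr (hJ x hx _).2)
  refine chain hJ hJc hr hr1 hO ?_
  intro n
  by_contra hcon
  push Not at hcon
  apply hJt
  rw [eq_top_iff, ← hX n, AddSubgroup.closure_le]
  rintro x (⟨e, he, rfl⟩ | hx)
  · choose f V hf hV he using he
    have := hcon f V hf hV
    have e1 : lprod (fun m => Ev (f m) (V m)) n = lprod e n := by
      apply lprod_congr
      intro m _
      exact (he m).symm
    rw [e1] at this
    exact this
  · exact hx

end

end Pool.Agent.J6H59.CC
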