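import Mathlib

/-!
# The exchange lemma for symmetrised multilinear expressions
-/

set_option autoImplicit false

namespace Pool.Agent.J6H59.CC

open Finset Equiv

/-- sums over a finite group can be computed along the cosets of a subgroup -/
theorem sum_cosets {C : Type*} [AddCommGroup C] (J : AddSubgroup C) {G H : Type*} [Group G]
    [Group H] [Fintype G] [Fintype H] (ι : H →* G) (hι : Function.Injective ι) (φ : G → C)
    (h : ∀ π : G, ∑ x : H, φ (π * ι x) ∈ J) : ∑ π : G, φ π ∈ J := by
  classical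
  let R : Subgroup G := ι.range
  rw [← Finset.sum_fiberwise (s := (Finset.univ : Finset G))
    (g := fun π : G => (QuotientGroup.mk π : G ⧸ R)) (f := φ)]
  refine J.sum_mem fun q _ => ?_
  obtain ⟨π, rfl⟩ := QuotientGroup.mk_surjective q
  have e : ∑ x ∈ Finset.univ.filter (fun x : G => (QuotientGroup.mk x : G ⧸ R) =
      QuotientGroup.mk π), φ x = ∑ x : H, φ (π * ι x) := by
    symm
    refine Finset.sum_bij (fun x _ => π * ι x) ?_ ?_ ?_ ?_
    · intro x _
      simp only [Finset.mem_filter, Finset.mem_univ, true_and]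
      rw [eq_comm, QuotientGroup.eq]
      simp only [inv_mul_cancel_left]
      exact ⟨x, rfl⟩
    · intro x _ y _ hxy
      exact hι (mul_left_cancel hxy)
    · intro y hy
      simp only [Finset.mem_filter, Finset.mem_univ, true_and] at hy
      rw [eq_comm, QuotientGroup.eq] at hy
      obtain ⟨x, hx⟩ := hy
      exact ⟨x, Finset.mem_univ _, by rw [hx, mul_inv_cancel_left]⟩
    · intro x _
      rfl
  rw [e]
  exact h π

theorem exchange {C : Type*} [AddCommGroup C] (J : AddSubgroup C) (r : ℕ)
    (m : Perm (Fin r ⊕ Fin r) → C)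
    (hm : ∀ T : Finset (Fin r ⊕ Fin r), T.card = r + 1 → ∀ π : Perm (Fin r ⊕ Fin r),
      ∑ h : Perm T, m (π * Perm.ofSubtype h) ∈ J) :
    ∑ x : Perm (Fin r) × Perm (Fin r), m (Equiv.sumComm _ _ * Perm.sumCongrHom _ _ x) -
      (-1 : ℤ) ^ r • ∑ x : Perm (Fin r) × Perm (Fin r), m (Perm.sumCongrHom _ _ x) ∈ J := by
  classical
  let L := Fin r ⊕ Fin r
  let A : Finset L := Finset.univ.map Function.Embedding.inl
  have hA : A.card = r := by simp [A]
  let ind : Perm L → L → ℤ := fun π p => if (π p).isLeft then 1 else 0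
  -- partial sums vanish
  have hpart : ∀ K : Finset L, K.card < r →
      ∑ π : Perm L, (∏ p ∈ K, ind π p) • m π ∈ J := by
    intro K hK
    have hc : r + 1 ≤ (Kᶜ).card := by
      rw [Finset.card_compl]
      simp only [L, Fintype.card_sum, Fintype.card_fin]
      omega
    obtain ⟨T, hTK, hT⟩ := Finset.exists_subset_card_eq hc
    refine sum_cosets J (Perm.ofSubtype (p := fun x => x ∈ T)) Perm.ofSubtype_injective _ ?_
    intro π
    have e : ∀ h : Perm T, (∏ p ∈ K, ind (π * Perm.ofSubtype h) p) = ∏ p ∈ K, ind π p := by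
      intro h
      refine Finset.prod_congr rfl fun p hp => ?_
      have hpT : p ∉ T := fun hpT => (Finset.mem_compl.1 (hTK hpT)) hp
      simp only [ind, Perm.mul_apply, Perm.ofSubtype_apply_of_not_mem h hpT]
    simp_rw [e]
    rw [← Finset.smul_sum]
    exact J.zsmul_mem (hm T hT π) _
  -- inclusion-exclusion
  have hie : ∀ π : Perm L, (∏ p ∈ A, (1 - ind π p)) =
      ∑ K ∈ A.powerset, (-1) ^ K.card * ∏ p ∈ K, ind π p := by
    intro π
    rw [Finset.prod_sub]
    refine Finset.sum_congr rfl fun K _ => ?_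
    simp
  have h1 : ∑ π : Perm L, (∏ p ∈ A, (1 - ind π p)) • m π =
      ∑ K ∈ A.powerset, ((-1 : ℤ) ^ K.card) • ∑ π : Perm L, (∏ p ∈ K, ind π p) • m π := by
    simp_rw [hie, Finset.sum_smul, mul_smul]
    rw [Finset.sum_comm]
    simp_rw [Finset.smul_sum]
  have h2 : ∑ π : Perm L, (∏ p ∈ A, (1 - ind π p)) • m π -
      (-1 : ℤ) ^ r • ∑ π : Perm L, (∏ p ∈ A, ind π p) • m π ∈ J := by
    rw [h1]
    have hAm : A ∈ A.powerset := Finset.mem_powerset_self A
    rw [← Finset.add_sum_erase _ _ hAm, hA, add_sub_cancel_left]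
    refine J.sum_mem fun K hK => ?_
    have hKA : K ⊆ A := Finset.mem_powerset.1 (Finset.mem_of_mem_erase hK)
    have hne : K ≠ A := Finset.ne_of_mem_erase hK
    have hlt : K.card < r := by
      rw [← hA]
      exact Finset.card_lt_card (lt_of_le_of_ne hKA hne)
    exact J.zsmul_mem (hpart K hlt) _
  -- identification of the sums
  have h3 : ∀ F : Perm L → C, ∑ π : Perm L, (∏ p ∈ A, ind π p) • F π =
      ∑ x : Perm (Fin r) × Perm (Fin r), F (Perm.sumCongrHom _ _ x) := by
    intro F
    have e1 : ∀ π : Perm L, (∏ p ∈ A, ind π p) • F π =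
        if π ∈ (Perm.sumCongrHom (Fin r) (Fin r)).range then F π else 0 := by
      intro π
      split_ifs with hπ
      · obtain ⟨⟨σ, τ⟩, rfl⟩ := hπ
        have : (∏ p ∈ A, ind (Perm.sumCongrHom _ _ (σ, τ)) p) = 1 := by
          refine Finset.prod_eq_one fun p hp => ?_
          obtain ⟨a, -, rfl⟩ := Finset.mem_map.1 hp
          exact if_pos rfl
        rw [this, one_smul]
      · have : ∃ p ∈ A, ind π p = 0 := by
          by_contra hcon
          push Not at hcon
          apply hπ
          apply Perm.mem_sumCongrHom_range_of_perm_mapsTo_inl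
          rintro _ ⟨a, rfl⟩
          have h0 := hcon (Sum.inl a) (Finset.mem_map.2 ⟨a, Finset.mem_univ _, rfl⟩)
          have h0' : (π (Sum.inl a)).isLeft = true := by
            by_contra h'
            exact h0 (if_neg h')
          obtain ⟨b, hb⟩ := Sum.isLeft_iff.1 h0'
          exact ⟨b, hb.symm⟩
        obtain ⟨p, hp, h0⟩ := this
        rw [Finset.prod_eq_zero hp h0, zero_smul]
    simp_rw [e1]
    rw [← Finset.sum_filter]
    symm
    refine Finset.sum_bij (fun x _ => Perm.sumCongrHom _ _ x) ?_ ?_ ?_ ?_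
    · intro x _
      simp only [Finset.mem_filter, Finset.mem_univ, true_and]
      exact ⟨x, rfl⟩
    · intro x _ y _ hxy
      exact Perm.sumCongrHom_injective hxy
    · intro y hy
      simp only [Finset.mem_filter, Finset.mem_univ, true_and] at hy
      obtain ⟨x, hx⟩ := hy
      exact ⟨x, Finset.mem_univ _, hx⟩
    · intro x _
      rfl
  have h4 : ∑ π : Perm L, (∏ p ∈ A, (1 - ind π p)) • m π =
      ∑ x : Perm (Fin r) × Perm (Fin r), m (Equiv.sumComm _ _ * Perm.sumCongrHom _ _ x) := by
    rw [← h3 (fun π => m (Equiv.sumComm _ _ * π))]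
    symm
    refine Fintype.sum_equiv (Equiv.mulLeft (Equiv.sumComm (Fin r) (Fin r) : Perm L)) _ _ ?_
    intro π
    simp only [Equiv.coe_mulLeft]
    congr 1
    refine Finset.prod_congr rfl fun p _ => ?_
    simp only [ind, Perm.mul_apply]
    have hy : ∀ y : Fin r ⊕ Fin r, (if y.isLeft = true then (1 : ℤ) else 0) =
        1 - if (Equiv.sumComm (Fin r) (Fin r) y).isLeft = true then 1 else 0 := by
      rintro (a | b) <;> simp
    exact hy (π p)
  rw [← h4, ← h3 m]
  exact h2

end Pool.Agent.J6H59.CC
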