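import Pool.Agent.J6H59.CC.Solv
import Pool.Agent.R546.RN.Ryll

/-!
# Countably categorical rings
-/

set_option autoImplicit false

namespace Pool.Agent.J6H59.CC

open FirstOrder FirstOrder.Language

/-- The language `{+, -, 0, *}`: one constant, one unary and two binary function symbols. -/
def RingLang : FirstOrder.Language.{0, 0} :=
  FirstOrder.Language.mk (fun n : ℕ => Fin (if n = 2 then 2 else if n ≤ 1 then 1 else 0))
    (fun _ : ℕ => Empty)

/-- A ring as a structure for the language `{+, -, 0, *}`. -/
@[reducible] def ringStructure (A : Type) [NonUnitalNonAssocRing A] : RingLang.Structure A where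
  funMap := fun {n} i x =>
    if n = 2 ∧ Fin.val i = 1 then (List.ofFn x).headD 0 * (List.ofFn x).getLastD 0
    else if n = 1 then -(∑ j, x j) else ∑ j, x j
  RelMap := fun {_} r _ => Empty.elim r

/-- The complete theory of `A` in the language `{+, -, 0, *}` has, up to isomorphism, exactly one
countable model. -/
def CountablyCategorical (A : Type) [NonUnitalNonAssocRing A] : Prop :=
  letI := ringStructure A
  Cardinal.Categorical Cardinal.aleph0.{0} (RingLang.completeTheory A)

/-- isomorphisms of the structure are ring automorphisms -/
theorem to_ring (A : Type) [NonUnitalNonAssocRing A] :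
    letI := ringStructure A
    ∀ g : A ≃[RingLang] A, ∃ h : A ≃+* A, ∀ x, h x = g x := by
  let _ := ringStructure A
  intro g
  let add : RingLang.Functions 2 := (0 : Fin 2)
  let mul : RingLang.Functions 2 := (1 : Fin 2)
  have hadd : ∀ x y : A, g (x + y) = g x + g y := by
    intro x y
    have h := g.map_fun add ![x, y]
    have e1 : Structure.funMap add ![x, y] = x + y := by
      show (if (2 = 2 ∧ Fin.val (0 : Fin 2) = 1) then _ else if (2 = 1) then _ else
        ∑ j : Fin 2, (![x, y] : Fin 2 → A) j) = x + y
      simp [Fin.sum_univ_two]
    have e2 : Structure.funMap add (g ∘ ![x, y]) = g x + g y := by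
      show (if (2 = 2 ∧ Fin.val (0 : Fin 2) = 1) then _ else if (2 = 1) then _ else
        ∑ j : Fin 2, (g ∘ ![x, y] : Fin 2 → A) j) = g x + g y
      simp [Fin.sum_univ_two]
    rw [e1, e2] at h
    exact h
  have hmul : ∀ x y : A, g (x * y) = g x * g y := by
    intro x y
    have h := g.map_fun mul ![x, y]
    have e1 : Structure.funMap mul ![x, y] = x * y := by
      show (if (2 = 2 ∧ Fin.val (1 : Fin 2) = 1) then
        (List.ofFn (![x, y] : Fin 2 → A)).headD 0 * (List.ofFn (![x, y] : Fin 2 → A)).getLastD 0
        else _) = x * y
      simp
    have e2 : Structure.funMap mul (g ∘ ![x, y]) = g x * g y := by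
      show (if (2 = 2 ∧ Fin.val (1 : Fin 2) = 1) then
        (List.ofFn (g ∘ ![x, y] : Fin 2 → A)).headD 0 *
          (List.ofFn (g ∘ ![x, y] : Fin 2 → A)).getLastD 0 else _) = g x * g y
      simp
    rw [e1, e2] at h
    exact h
  refine ⟨{ g.toEquiv with map_mul' := hmul, map_add' := hadd }, fun x => rfl⟩

theorem olig_of_categorical (A : Type) [NonUnitalNonAssocRing A] [Countable A]
    (h : CountablyCategorical A) : Olig A := by
  classical
  rcases finite_or_infinite A with hfin | hinf
  · have := Fintype.ofFinite A
    exact ⟨Finset.univ, fun v => ⟨v, Finset.mem_univ _, RingEquiv.refl A, fun _ => rfl⟩⟩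
  · let _ := ringStructure A
    have hsym : Countable RingLang.Symbols := by
      unfold FirstOrder.Language.Symbols
      have : ∀ n, Countable (RingLang.Functions n) := fun n => by
        unfold RingLang
        infer_instance
      have : ∀ n, Countable (RingLang.Relations n) := fun n => by
        unfold RingLang
        infer_instance
      infer_instance
    have hoc : Pool.Agent.R603.OmegaCategorical RingLang A := by
      intro B _ _ hB
      have hel : A ≅[RingLang] B :=
        FirstOrder.Language.elementarilyEquivalent_iff.2 fun φ =>
          (FirstOrder.Language.realize_iff_of_model_completeTheory A B φ).symm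
      have : Infinite B := hel.infinite
      have : Nonempty A := ⟨0⟩
      have : Nonempty B := inferInstance
      have hA : A ⊨ RingLang.completeTheory A := inferInstance
      let M : (RingLang.completeTheory A).ModelType := FirstOrder.Language.Theory.ModelType.of _ A
      let N : (RingLang.completeTheory A).ModelType := FirstOrder.Language.Theory.ModelType.of _ B
      exact h M N (Cardinal.mk_eq_aleph0 A) (Cardinal.mk_eq_aleph0 B)
    obtain ⟨S, hS⟩ := Pool.Agent.R546.RN.oligomorphic_of_omegaCategorical RingLang A hoc 4
    refine ⟨S, fun v => ?_⟩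
    obtain ⟨s, hs, g, hg⟩ := hS v
    obtain ⟨h', hh⟩ := to_ring A g
    exact ⟨s, hs, h', fun i => by rw [hh, hg i]⟩

end Pool.Agent.J6H59.CC
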