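import Mathlib

/-!
# Multilinear monomials in a nonassociative ring, symmetrised values
-/

set_option autoImplicit false

namespace Pool.Agent.J6H59.CC

open Finset

/-- A two-sided ideal of a (nonassociative, nonunital) ring, as an additive subgroup. -/
def IsIdeal {C : Type*} [NonUnitalNonAssocRing C] (I : AddSubgroup C) : Prop :=
  ∀ x ∈ I, ∀ c, c * x ∈ I ∧ x * c ∈ I

/-- `Mon s f`: the function `f` is a nonassociative monomial in the variables with index in `s`,
each occurring exactly once, and constants. -/
inductive Mon {C : Type*} [NonUnitalNonAssocRing C] {ι : Type} [DecidableEq ι] :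
    Finset ι → ((ι → C) → C) → Prop
  | gap (c : C) : Mon ∅ (fun _ => c)
  | leaf (i : ι) : Mon {i} (fun x => x i)
  | mul {s t : Finset ι} {f g : (ι → C) → C} (hf : Mon s f) (hg : Mon t g) (hd : Disjoint s t) :
      Mon (s ∪ t) (fun x => f x * g x)

section
variable {C : Type*} [NonUnitalNonAssocRing C] {ι : Type} [DecidableEq ι]

theorem Mon.congr {s : Finset ι} {f : (ι → C) → C} (h : Mon s f) :
    ∀ x y : ι → C, (∀ i ∈ s, x i = y i) → f x = f y := by
  induction h with
  | gap c => intro x y _; rfl
  | leaf i => intro x y h; exact h i (by simp)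
  | mul hf hg hd ih1 ih2 =>
    intro x y h
    have h1 := ih1 x y (fun i hi => h i (Finset.mem_union_left _ hi))
    have h2 := ih2 x y (fun i hi => h i (Finset.mem_union_right _ hi))
    simp only [h1, h2]

theorem Mon.upd {s : Finset ι} {f : (ι → C) → C} (h : Mon s f) {i : ι} (hi : i ∉ s)
    (x : ι → C) (a : C) : f (Function.update x i a) = f x := by
  apply h.congr
  intro j hj
  rw [Function.update_of_ne]
  rintro rfl
  exact hi hj

theorem Mon.add {s : Finset ι} {f : (ι → C) → C} (h : Mon s f) :
    ∀ i ∈ s, ∀ (x : ι → C) (a b : C), f (Function.update x i (a + b)) =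
      f (Function.update x i a) + f (Function.update x i b) := by
  induction h with
  | gap c => intro i hi; simp at hi
  | leaf j =>
    intro i hi x a b
    have : i = j := by simpa using hi
    subst this
    simp
  | mul hf hg hd ih1 ih2 =>
    intro i hi x a b
    rcases Finset.mem_union.1 hi with h1 | h1
    · have h2 : i ∉ _ := Finset.disjoint_left.1 hd h1
      simp only [ih1 i h1, hg.upd h2, add_mul]
    · have h2 : i ∉ _ := Finset.disjoint_right.1 hd h1
      simp only [ih2 i h1, hf.upd h2, mul_add]

/-- a function additive in the coordinate `i` -/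
theorem Mon.sum {s : Finset ι} {f : (ι → C) → C} (h : Mon s f) {i : ι} (hi : i ∈ s) (x : ι → C)
    {β : Type*} (t : Finset β) (a : β → C) : f (Function.update x i (∑ b ∈ t, a b)) =
      ∑ b ∈ t, f (Function.update x i (a b)) := by
  let φ : C →+ C := AddMonoidHom.mk' (fun a => f (Function.update x i a)) (h.add i hi x)
  have := map_sum φ a t
  exact this

/-- substituting constants for some variables and renaming the others -/
theorem Mon.pull {κ : Type} [DecidableEq κ] [Fintype κ] (p : ι → Option κ) (c : ι → C)
    (hp : ∀ i j k, p i = some k → p j = some k → i = j) {s : Finset ι} {f : (ι → C) → C}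
    (h : Mon s f) :
    Mon (Finset.univ.filter fun k => ∃ i ∈ s, p i = some k)
      (fun z : κ → C => f fun i => (p i).elim (c i) z) := by
  induction h with
  | gap d =>
    have : (Finset.univ.filter fun k : κ => ∃ i ∈ (∅ : Finset ι), p i = some k) = ∅ := by
      ext k; simp
    rw [this]
    exact Mon.gap d
  | leaf i =>
    rcases hi : p i with _ | k
    · have : (Finset.univ.filter fun k : κ => ∃ j ∈ ({i} : Finset ι), p j = some k) = ∅ := by
        ext k; simp [hi]
      rw [this]
      have e : (fun z : κ → C => (fun x : ι → C => x i) fun i => (p i).elim (c i) z) =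
          fun _ => c i := by
        funext z; simp [hi]
      rw [e]
      exact Mon.gap (c i)
    · have : (Finset.univ.filter fun k : κ => ∃ j ∈ ({i} : Finset ι), p j = some k) = {k} := by
        ext l; simp [hi, eq_comm]
      rw [this]
      have e : (fun z : κ → C => (fun x : ι → C => x i) fun i => (p i).elim (c i) z) =
          fun z => z k := by
        funext z; simp [hi]
      rw [e]
      exact Mon.leaf k
  | mul hf hg hd ih1 ih2 =>
    rename_i s t f g
    have : (Finset.univ.filter fun k : κ => ∃ i ∈ s ∪ t, p i = some k) =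
        (Finset.univ.filter fun k : κ => ∃ i ∈ s, p i = some k) ∪
        (Finset.univ.filter fun k : κ => ∃ i ∈ t, p i = some k) := by
      ext k
      simp only [Finset.mem_filter, Finset.mem_univ, true_and, Finset.mem_union]
      constructor
      · rintro ⟨i, hi | hi, h⟩
        · exact Or.inl ⟨i, hi, h⟩
        · exact Or.inr ⟨i, hi, h⟩
      · rintro (⟨i, hi, h⟩ | ⟨i, hi, h⟩)
        · exact ⟨i, Or.inl hi, h⟩
        · exact ⟨i, Or.inr hi, h⟩
    rw [this]
    refine Mon.mul ih1 ih2 ?_
    rw [Finset.disjoint_left]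
    intro k h1 h2
    simp only [Finset.mem_filter, Finset.mem_univ, true_and] at h1 h2
    obtain ⟨i, hi, h1⟩ := h1
    obtain ⟨j, hj, h2⟩ := h2
    have := hp i j k h1 h2
    subst this
    exact Finset.disjoint_left.1 hd hi hj

/-- the values of a monomial lie in every ideal containing one of the arguments -/
theorem Mon.mem {I : AddSubgroup C} (hI : IsIdeal I) {s : Finset ι} {f : (ι → C) → C}
    (h : Mon s f) : ∀ i ∈ s, ∀ x : ι → C, x i ∈ I → f x ∈ I := by
  induction h with
  | gap c => intro i hi; simp at hi
  | leaf j =>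
    intro i hi x hx
    have : i = j := by simpa using hi
    subst this
    exact hx
  | mul hf hg hd ih1 ih2 =>
    intro i hi x hx
    rcases Finset.mem_union.1 hi with h1 | h1
    · exact (hI _ (ih1 i h1 x hx) _).2
    · exact (hI _ (ih2 i h1 x hx) _).1

/-- a monomial vanishes modulo `J` when two arguments lie in an ideal with square in `J` -/
theorem Mon.mem2 {I J : AddSubgroup C} (hI : IsIdeal I) (hJ : IsIdeal J)
    (hIJ : ∀ x ∈ I, ∀ y ∈ I, x * y ∈ J) {s : Finset ι} {f : (ι → C) → C}
    (h : Mon s f) : ∀ i ∈ s, ∀ j ∈ s, i ≠ j → ∀ x : ι → C, x i ∈ I → x j ∈ I → f x ∈ J := by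
  induction h with
  | gap c => intro i hi; simp at hi
  | leaf k =>
    intro i hi j hj hij
    have h1 : i = k := by simpa using hi
    have h2 : j = k := by simpa using hj
    exact absurd (h1.trans h2.symm) hij
  | mul hf hg hd ih1 ih2 =>
    intro i hi j hj hij x hxi hxj
    rcases Finset.mem_union.1 hi with h1 | h1 <;> rcases Finset.mem_union.1 hj with h2 | h2
    · exact (hJ _ (ih1 i h1 j h2 hij x hxi hxj) _).2
    · exact hIJ _ (hf.mem hI i h1 x hxi) _ (hg.mem hI j h2 x hxj)
    · exact hIJ _ (hf.mem hI j h2 x hxj) _ (hg.mem hI i h1 x hxi)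
    · exact (hJ _ (ih2 i h1 j h2 hij x hxi hxj) _).1

/-- transport of a monomial by a ring automorphism -/
theorem Mon.aut {s : Finset ι} {f : (ι → C) → C} (h : Mon s f) (g : C → C)
    (hg : ∀ x y, g (x * y) = g x * g y) :
    ∃ f' : (ι → C) → C, Mon s f' ∧ ∀ x, g (f x) = f' (fun i => g (x i)) := by
  induction h with
  | gap c => exact ⟨fun _ => g c, Mon.gap _, fun _ => rfl⟩
  | leaf i => exact ⟨fun x => x i, Mon.leaf _, fun _ => rfl⟩
  | mul hf hg' hd ih1 ih2 =>
    obtain ⟨f1, h1, e1⟩ := ih1
    obtain ⟨f2, h2, e2⟩ := ih2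
    exact ⟨fun x => f1 x * f2 x, Mon.mul h1 h2 hd, fun x => by rw [hg, e1, e2]⟩

end

end Pool.Agent.J6H59.CC
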