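import Pool.Agent.J6H59.CC.Mon
import Pool.Agent.J6H59.CC.Exch

/-!
# Left-normed products of symmetrised values, and permutations of the rows
-/

set_option autoImplicit false

namespace Pool.Agent.J6H59.CC

open Finset Equiv

section
variable {C : Type*} [NonUnitalNonAssocRing C]

/-- the symmetrised value of a monomial -/
def Ev {r : ℕ} (f : (Fin r → C) → C) (V : Fin r → C) : C := ∑ σ : Perm (Fin r), f (V ∘ σ)

/-- all symmetrised values of monomials in `n` variables lie in `J` -/
def SymJ (J : AddSubgroup C) (n : ℕ) : Prop :=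
  ∀ f : (Fin n → C) → C, Mon Finset.univ f → ∀ V, Ev f V ∈ J

theorem SymJ.gen {J : AddSubgroup C} {n : ℕ} (h : SymJ J n) {ι : Type} [DecidableEq ι]
    {s : Finset ι} {f : (ι → C) → C} (hf : Mon s f) (T : Finset ι) (hTs : T ⊆ s)
    (hT : T.card = n) (y : ι → C) : ∑ σ : Perm T, f (y ∘ Perm.ofSubtype σ) ∈ J := by
  classical
  let e : T ≃ Fin n := T.equivFin.trans (finCongr hT)
  let p : ι → Option (Fin n) := fun i => if h : i ∈ T then some (e ⟨i, h⟩) else none
  have hp : ∀ i j k, p i = some k → p j = some k → i = j := by
    intro i j k hi hj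
    simp only [p] at hi hj
    split_ifs at hi with h1
    split_ifs at hj with h2
    have := e.injective ((Option.some.inj hi).trans (Option.some.inj hj).symm)
    exact congrArg Subtype.val this
  have hM := hf.pull p y hp
  have hu : (Finset.univ.filter fun k => ∃ i ∈ s, p i = some k) = Finset.univ := by
    ext k
    simp only [Finset.mem_filter, Finset.mem_univ, true_and, iff_true]
    refine ⟨(e.symm k).1, hTs (e.symm k).2, ?_⟩
    simp [p]
  rw [hu] at hM
  have hJ := h _ hM (fun k => y (e.symm k).1)
  have e1 : Ev (fun z : Fin n → C => f fun i => (p i).elim (y i) z) (fun k => y (e.symm k).1) =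
      ∑ σ : Perm T, f (y ∘ Perm.ofSubtype σ) := by
    unfold Ev
    symm
    refine Fintype.sum_equiv e.permCongr _ _ ?_
    intro σ
    congr 1
    funext i
    by_cases hi : i ∈ T
    · simp only [Function.comp_apply, p, dif_pos hi, Option.elim_some, Equiv.permCongr_apply,
        Equiv.symm_apply_apply]
      rw [Perm.ofSubtype_apply_of_mem σ hi]
    · simp only [Function.comp_apply, p, dif_neg hi, Option.elim_none]
      rw [Perm.ofSubtype_apply_of_not_mem σ hi]
  rw [← e1]
  exact hJ

/-- left-normed product of `e 0, ..., e n` -/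
def lprod (e : ℕ → C) : ℕ → C
  | 0 => e 0
  | n + 1 => lprod e n * e (n + 1)

theorem lprod_congr {e e' : ℕ → C} {n : ℕ} (h : ∀ m ≤ n, e m = e' m) : lprod e n = lprod e' n := by
  induction n with
  | zero => exact h 0 le_rfl
  | succ n ih =>
    simp only [lprod]
    rw [ih (fun m hm => h m (by omega)), h (n + 1) le_rfl]

theorem Mon.lprod {ι : Type} [DecidableEq ι] (t : ℕ → (ι → C) → C) (s : ℕ → Finset ι)
    (ht : ∀ m, Mon (s m) (t m)) (hd : ∀ i j, i ≠ j → Disjoint (s i) (s j)) (n : ℕ) :
    Mon ((Finset.range (n + 1)).biUnion s) (fun x => CC.lprod (fun m => t m x) n) := by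
  induction n with
  | zero =>
    have : (Finset.range (0 + 1)).biUnion s = s 0 := by simp
    rw [this]
    exact ht 0
  | succ n ih =>
    have : (Finset.range (n + 1 + 1)).biUnion s = (Finset.range (n + 1)).biUnion s ∪ s (n + 1) := by
      rw [Finset.range_add_one, Finset.biUnion_insert, Finset.union_comm]
    rw [this]
    refine Mon.mul ih (ht (n + 1)) ?_
    rw [Finset.disjoint_biUnion_left]
    intro i hi
    exact hd i (n + 1) (by have := Finset.mem_range.1 hi; omega)

theorem monL (n : ℕ) : Mon (Finset.range (n + 1)) (fun x : ℕ → C => lprod x n) := by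
  have h := Mon.lprod (C := C) (fun m x => x m) (fun m => {m}) (fun m => Mon.leaf m)
    (fun i j hij => by simpa using hij) n
  have e : (Finset.range (n + 1)).biUnion (fun m => ({m} : Finset ℕ)) = Finset.range (n + 1) := by
    ext k; simp
  rw [e] at h
  exact h

/-- equal up to sign modulo `J` -/
def PM (J : AddSubgroup C) (a b : C) : Prop := a - b ∈ J ∨ a + b ∈ J

theorem PM.refl (J : AddSubgroup C) (a : C) : PM J a a := Or.inl (by simp)

theorem PM.symm {J : AddSubgroup C} {a b : C} (h : PM J a b) : PM J b a := by
  rcases h with h | h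
  · left
    have := J.neg_mem h
    rwa [neg_sub] at this
  · right
    rwa [add_comm] at h

theorem PM.trans {J : AddSubgroup C} {a b c : C} (h : PM J a b) (h' : PM J b c) : PM J a c := by
  rcases h with h | h <;> rcases h' with h' | h'
  · left
    have := J.add_mem h h'
    rwa [sub_add_sub_cancel] at this
  · right
    have := J.add_mem h h'
    have e : a - b + (b + c) = a + c := by abel
    rwa [e] at this
  · right
    have := J.sub_mem h h'
    have e : a + b - (b - c) = a + c := by abel
    rwa [e] at this
  · left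
    have := J.sub_mem h h'
    have e : a + b - (b + c) = a - c := by abel
    rwa [e] at this

theorem PM.mem {J : AddSubgroup C} {a b : C} (h : PM J a b) (hb : b ∈ J) : a ∈ J := by
  rcases h with h | h
  · have := J.add_mem h hb
    rwa [sub_add_cancel] at this
  · have := J.sub_mem h hb
    rwa [add_sub_cancel_right] at this

/-- exchange of two rows in a left-normed product -/
theorem exch_lprod {J : AddSubgroup C} {r : ℕ} (hS : SymJ J (r + 1)) {n i j : ℕ} (hij : i ≠ j)
    (hi : i ≤ n) (hj : j ≤ n) {f g : (Fin r → C) → C} (hf : Mon Finset.univ f)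
    (hg : Mon Finset.univ g) (V W : Fin r → C) (c : ℕ → C) :
    PM J (lprod (Function.update (Function.update c i (Ev f W)) j (Ev g V)) n)
      (lprod (Function.update (Function.update c i (Ev f V)) j (Ev g W)) n) := by
  classical
  -- the monomial
  have hf' : Mon (Finset.univ.map Function.Embedding.inl)
      (fun x : Fin r ⊕ Fin r → C => f (fun i => x (Sum.inl i))) := by
    have h := hf.pull (κ := Fin r ⊕ Fin r) (fun i => some (Sum.inl i)) (fun _ => 0) (by
      intro i j k h1 h2
      have := (Option.some.inj h1).trans (Option.some.inj h2).symm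
      exact Sum.inl_injective this)
    convert h using 1
    · ext k; simp
    · rfl
  have hg' : Mon (Finset.univ.map Function.Embedding.inr)
      (fun x : Fin r ⊕ Fin r → C => g (fun i => x (Sum.inr i))) := by
    have h := hg.pull (κ := Fin r ⊕ Fin r) (fun i => some (Sum.inr i)) (fun _ => 0) (by
      intro i j k h1 h2
      have := (Option.some.inj h1).trans (Option.some.inj h2).symm
      exact Sum.inr_injective this)
    convert h using 1
    · ext k; simp
    · rfl
  let M : (Fin r ⊕ Fin r → C) → C := fun x =>
    lprod (Function.update (Function.update c i (f (fun i => x (Sum.inl i)))) j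
      (g (fun i => x (Sum.inr i)))) n
  have hM : Mon (Finset.univ : Finset (Fin r ⊕ Fin r)) M := by
    have h := Mon.lprod (C := C) (ι := Fin r ⊕ Fin r)
      (fun m x => Function.update (Function.update c i (f (fun i => x (Sum.inl i)))) j
        (g (fun i => x (Sum.inr i))) m)
      (fun m => if m = j then Finset.univ.map Function.Embedding.inr else
        if m = i then Finset.univ.map Function.Embedding.inl else ∅)
      (by
        intro m
        by_cases hmj : m = j
        · subst hmj
          simpa using hg'
        · by_cases hmi : m = i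
          · subst hmi
            simpa [Function.update_of_ne hmj, hmj] using hf'
          · simpa [Function.update_of_ne hmj, Function.update_of_ne hmi, hmj, hmi] using
              Mon.gap (c m))
      (by
        intro a b hab
        rw [Finset.disjoint_left]
        intro x hx hx'
        split_ifs at hx with h1 h2 <;> split_ifs at hx' with h3 h4
        · omega
        · obtain ⟨y, -, rfl⟩ := Finset.mem_map.1 hx
          obtain ⟨z, -, hz⟩ := Finset.mem_map.1 hx'
          cases hz
        · simp at hx'
        · obtain ⟨y, -, rfl⟩ := Finset.mem_map.1 hx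
          obtain ⟨z, -, hz⟩ := Finset.mem_map.1 hx'
          cases hz
        · omega
        · simp at hx'
        · simp at hx
        · simp at hx
        · simp at hx) n
    have e : (Finset.range (n + 1)).biUnion (fun m => if m = j then
        (Finset.univ : Finset (Fin r)).map (Function.Embedding.inr (α := Fin r)) else
        if m = i then Finset.univ.map Function.Embedding.inl else ∅) = Finset.univ := by
      ext x
      simp only [Finset.mem_biUnion, Finset.mem_univ, iff_true]
      rcases x with x | x
      · refine ⟨i, Finset.mem_range.2 (by omega), ?_⟩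
        rw [if_neg hij, if_pos rfl]
        exact Finset.mem_map.2 ⟨x, Finset.mem_univ _, rfl⟩
      · refine ⟨j, Finset.mem_range.2 (by omega), ?_⟩
        rw [if_pos rfl]
        exact Finset.mem_map.2 ⟨x, Finset.mem_univ _, rfl⟩
    rw [e] at h
    exact h
  -- the sums
  have hsum : ∀ V W : Fin r → C,
      lprod (Function.update (Function.update c i (Ev f V)) j (Ev g W)) n =
      ∑ x : Perm (Fin r) × Perm (Fin r), M (Sum.elim (V ∘ x.1) (W ∘ x.2)) := by
    intro V W
    have hL := monL (C := C) n
    rw [Ev, Ev, hL.sum (Finset.mem_range.2 (by omega)) _ _ (fun τ : Perm (Fin r) => g (W ∘ τ))]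
    rw [Fintype.sum_prod_type_right]
    refine Finset.sum_congr rfl fun τ _ => ?_
    rw [Function.update_comm hij,
      hL.sum (Finset.mem_range.2 (by omega)) _ _ (fun σ : Perm (Fin r) => f (V ∘ σ))]
    refine Finset.sum_congr rfl fun σ _ => ?_
    rw [← Function.update_comm hij]
    rfl
  have hex := exchange J r (fun π => M (Sum.elim V W ∘ π)) (fun T hT π =>
    hS.gen hM T (Finset.subset_univ _) hT (Sum.elim V W ∘ π))
  have e1 : ∀ x : Perm (Fin r) × Perm (Fin r),
      M (Sum.elim V W ∘ (Equiv.sumComm _ _ * Perm.sumCongrHom _ _ x : Perm _)) =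
      M (Sum.elim (W ∘ x.1) (V ∘ x.2)) := by
    intro x
    congr 1
    funext p
    rcases p with p | p <;> rfl
  have e2 : ∀ x : Perm (Fin r) × Perm (Fin r),
      M (Sum.elim V W ∘ (Perm.sumCongrHom _ _ x : Perm _)) =
      M (Sum.elim (V ∘ x.1) (W ∘ x.2)) := by
    intro x
    congr 1
    funext p
    rcases p with p | p <;> rfl
  simp only [e1, e2] at hex
  rw [← hsum, ← hsum] at hex
  rcases Nat.even_or_odd r with hr | hr
  · left
    rwa [hr.neg_one_pow, one_smul] at hex
  · right
    rwa [hr.neg_one_pow, neg_smul, one_smul, sub_neg_eq_add] at hex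

/-- permuting the rows of a left-normed product changes it by a sign only -/
theorem perm_lprod {J : AddSubgroup C} {r : ℕ} (hS : SymJ J (r + 1)) {n : ℕ} (S : Finset ℕ)
    (hn : ∀ m ∈ S, m ≤ n) {f : ℕ → (Fin r → C) → C} (hf : ∀ m, Mon Finset.univ (f m))
    (c : ℕ → C) (π : Perm S) : ∀ R : S → Fin r → C,
    PM J (lprod (fun m => if h : m ∈ S then Ev (f m) (R ⟨m, h⟩) else c m) n)
      (lprod (fun m => if h : m ∈ S then Ev (f m) (R (π ⟨m, h⟩)) else c m) n) := by
  classical
  induction π using Equiv.Perm.swap_induction_on with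
  | one => intro R; exact PM.refl _ _
  | swap_mul π x y hxy ih =>
    intro R
    have h1 := ih (R ∘ Equiv.swap x y)
    refine PM.trans ?_ h1
    have hxy' : x.1 ≠ y.1 := fun h => hxy (Subtype.ext h)
    have hex := exch_lprod hS hxy' (hn _ x.2) (hn _ y.2) (hf x.1) (hf y.1) (R y) (R x)
      (fun m => if h : m ∈ S then Ev (f m) (R ⟨m, h⟩) else c m)
    have e1 : Function.update (Function.update
        (fun m => if h : m ∈ S then Ev (f m) (R ⟨m, h⟩) else c m) x.1 (Ev (f x.1) (R x))) y.1
        (Ev (f y.1) (R y)) = (fun m => if h : m ∈ S then Ev (f m) (R ⟨m, h⟩) else c m) := by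
      funext m
      by_cases hmy : m = y.1
      · subst hmy
        simp
      · rw [Function.update_of_ne hmy]
        by_cases hmx : m = x.1
        · subst hmx
          simp
        · rw [Function.update_of_ne hmx]
    have e2 : Function.update (Function.update
        (fun m => if h : m ∈ S then Ev (f m) (R ⟨m, h⟩) else c m) x.1 (Ev (f x.1) (R y))) y.1
        (Ev (f y.1) (R x)) = (fun m => if h : m ∈ S then
          Ev (f m) ((R ∘ Equiv.swap x y) ⟨m, h⟩) else c m) := by
      funext m
      by_cases hmy : m = y.1
      · subst hmy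
        simp
      · rw [Function.update_of_ne hmy]
        by_cases hmx : m = x.1
        · subst hmx
          simp
        · rw [Function.update_of_ne hmx]
          by_cases hm : m ∈ S
          · simp only [dif_pos hm, Function.comp_apply]
            rw [Equiv.swap_apply_of_ne_of_ne]
            · intro h
              exact hmx (congrArg Subtype.val h)
            · intro h
              exact hmy (congrArg Subtype.val h)
          · simp only [dif_neg hm]
    rw [e1, e2] at hex
    exact hex

/-- two labellings of the same slots by the same rows give the same product up to sign -/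
theorem label_lprod {J : AddSubgroup C} {r : ℕ} (hS : SymJ J (r + 1)) {n : ℕ} (S : Finset ℕ)
    (hn : ∀ m ∈ S, m ≤ n) {f : ℕ → (Fin r → C) → C} (hf : ∀ m, Mon Finset.univ (f m))
    (Row : ℕ → Fin r → C) (e e' : ℕ → C) (ρ ρ' : ℕ → ℕ)
    (he : ∀ m ∈ S, e m = Ev (f m) (Row (ρ m))) (he' : ∀ m ∈ S, e' m = Ev (f m) (Row (ρ' m)))
    (hc : ∀ m ≤ n, m ∉ S → e m = e' m) (T : Finset ℕ) (hT : T.card = S.card)
    (hρ : ∀ m ∈ S, ρ m ∈ T) (hρ' : ∀ m ∈ S, ρ' m ∈ T)
    (hi : ∀ m ∈ S, ∀ m' ∈ S, ρ m = ρ m' → m = m')
    (hi' : ∀ m ∈ S, ∀ m' ∈ S, ρ' m = ρ' m' → m = m') :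
    PM J (lprod e n) (lprod e' n) := by
  classical
  have him : ∀ σ : ℕ → ℕ, (∀ m ∈ S, σ m ∈ T) → (∀ m ∈ S, ∀ m' ∈ S, σ m = σ m' → m = m') →
      S.image σ = T := by
    intro σ h1 h2
    apply Finset.eq_of_subset_of_card_le
    · intro x hx
      obtain ⟨m, hm, rfl⟩ := Finset.mem_image.1 hx
      exact h1 m hm
    · rw [Finset.card_image_of_injOn (fun a ha b hb h => h2 a ha b hb h), hT]
  have h1 := him ρ hρ hi
  have h2 := him ρ' hρ' hi'
  have hex : ∀ m : S, ∃ m' : S, ρ m' = ρ' m := by
    intro m
    have : ρ' m ∈ S.image ρ := by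
      rw [h1]
      exact hρ' _ m.2
    obtain ⟨m', hm', h⟩ := Finset.mem_image.1 this
    exact ⟨⟨m', hm'⟩, h⟩
  choose π hπ using hex
  have hinj : Function.Injective π := by
    intro a b hab
    apply Subtype.ext
    apply hi' _ a.2 _ b.2
    rw [← hπ a, ← hπ b, hab]
  let πe : Perm S := Equiv.ofBijective π (Finite.injective_iff_bijective.1 hinj)
  have h := perm_lprod hS S hn hf e πe (fun m => Row (ρ m))
  have a1 : lprod (fun m => if h : m ∈ S then Ev (f m) (Row (ρ (⟨m, h⟩ : S))) else e m) n =
      lprod e n := by
    apply lprod_congr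
    intro m _
    by_cases hm : m ∈ S
    · simp only [dif_pos hm]
      exact (he m hm).symm
    · simp only [dif_neg hm]
  have a2 : lprod (fun m => if h : m ∈ S then Ev (f m) (Row (ρ (πe ⟨m, h⟩))) else e m) n =
      lprod e' n := by
    apply lprod_congr
    intro m hmn
    by_cases hm : m ∈ S
    · simp only [dif_pos hm]
      rw [he' m hm]
      have : ρ (πe ⟨m, hm⟩) = ρ' m := hπ ⟨m, hm⟩
      rw [this]
    · simp only [dif_neg hm]
      exact hc m hmn hm
  rw [a1, a2] at h
  exact h

/-- a row occurring twice gives a product in `J` -/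
theorem lprod_mem {I J : AddSubgroup C} (hI : IsIdeal I) (hJ : IsIdeal J)
    (hIJ : ∀ x ∈ I, ∀ y ∈ I, x * y ∈ J) {n i j : ℕ} (hij : i ≠ j) (hi : i ≤ n) (hj : j ≤ n)
    (e : ℕ → C) (h1 : e i ∈ I) (h2 : e j ∈ I) : lprod e n ∈ J :=
  (monL n).mem2 hI hJ hIJ i (Finset.mem_range.2 (by omega)) j (Finset.mem_range.2 (by omega)) hij
    e h1 h2

theorem Ev_mem {I : AddSubgroup C} (hI : IsIdeal I) {r : ℕ} {f : (Fin r → C) → C}
    (hf : Mon Finset.univ f) (V : Fin r → C) (a : Fin r) (ha : V a ∈ I) : Ev f V ∈ I := by
  refine I.sum_mem fun σ _ => ?_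
  refine hf.mem hI (σ⁻¹ a) (Finset.mem_univ _) _ ?_
  simpa using ha

theorem Ev_add {r : ℕ} {f : (Fin r → C) → C} (hf : Mon Finset.univ f) (V : Fin r → C) (i : Fin r)
    (a b : C) : Ev f (Function.update V i (a + b)) =
      Ev f (Function.update V i a) + Ev f (Function.update V i b) := by
  unfold Ev
  rw [← Finset.sum_add_distrib]
  refine Finset.sum_congr rfl fun σ _ => ?_
  rw [Function.update_comp_equiv, Function.update_comp_equiv, Function.update_comp_equiv]
  exact hf.add _ (Finset.mem_univ _) _ _ _

/-- a multiadditive function with values in `X` on generators has all values in `X` -/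
theorem multi_mem {ι : Type} [DecidableEq ι] [Fintype ι] (Φ : (ι → C) → C)
    (hΦ : ∀ V i a b, Φ (Function.update V i (a + b)) =
      Φ (Function.update V i a) + Φ (Function.update V i b))
    (U : Set C) (hU : AddSubgroup.closure U = ⊤) (X : AddSubgroup C)
    (h : ∀ V, (∀ i, V i ∈ U) → Φ V ∈ X) (V : ι → C) : Φ V ∈ X := by
  have key : ∀ T : Finset ι, ∀ V, (∀ i ∉ T, V i ∈ U) → Φ V ∈ X := by
    intro T
    induction T using Finset.induction_on with
    | empty => intro V hV; exact h V (fun i => hV i (by simp))
    | insert a T ha ih =>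
      intro V hV
      let φ : C →+ C := AddMonoidHom.mk' (fun w => Φ (Function.update V a w)) (hΦ V a)
      have h1 : AddSubgroup.closure U ≤ X.comap φ := by
        rw [AddSubgroup.closure_le]
        intro w hw
        show Φ (Function.update V a w) ∈ X
        apply ih
        intro i hi
        by_cases hia : i = a
        · subst hia
          simpa using hw
        · rw [Function.update_of_ne hia]
          apply hV
          simp [hia, hi]
      rw [hU] at h1
      have h2 : φ (V a) ∈ X := h1 (AddSubgroup.mem_top (V a))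
      have h3 : φ (V a) = Φ V := by
        show Φ (Function.update V a (V a)) = Φ V
        rw [Function.update_eq_self]
      rwa [h3] at h2
  exact key Finset.univ V (fun i hi => absurd (Finset.mem_univ i) hi)

end

end Pool.Agent.J6H59.CC
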