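import Pool.Agent.J6H59.CC.Core

/-!
# Rings with finitely many orbits on tuples whose quotients have ideals of square zero are solvable
-/

set_option autoImplicit false

namespace Pool.Agent.J6H59.CC

open Finset Equiv

section
variable {A : Type*} [NonUnitalNonAssocRing A]

theorem finite_char (hO : Olig A) : {I : AddSubgroup A | IsChar I}.Finite := by
  classical
  obtain ⟨S, hS⟩ := hO
  refine Set.Finite.of_injOn (f := fun I : AddSubgroup A => S.filter (fun s => s 0 ∈ I))
    (t := (S.powerset : Set (Finset (Fin 4 → A)))) ?_ ?_ (Finset.finite_toSet _)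
  · intro I _
    simp only [Finset.coe_powerset, Set.mem_preimage, Set.mem_powerset_iff, Finset.coe_subset]
    exact Finset.filter_subset _ _
  · intro I hI I' hI' h
    have h' : S.filter (fun s => s 0 ∈ I) = S.filter (fun s => s 0 ∈ I') := h
    ext x
    obtain ⟨s, hs, g, hg⟩ := hS (fun _ => x)
    have e1 : g (s 0) = x := hg 0
    have e2 : s 0 = g.symm x := by rw [← e1, RingEquiv.symm_apply_apply]
    have h1 : s 0 ∈ I ↔ s 0 ∈ I' := by
      constructor
      · intro h2
        have : s ∈ S.filter (fun s => s 0 ∈ I) := Finset.mem_filter.2 ⟨hs, h2⟩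
        rw [h'] at this
        exact (Finset.mem_filter.1 this).2
      · intro h2
        have : s ∈ S.filter (fun s => s 0 ∈ I') := Finset.mem_filter.2 ⟨hs, h2⟩
        rw [← h'] at this
        exact (Finset.mem_filter.1 this).2
    constructor
    · intro hx
      have h2 := hI g.symm x hx
      rw [← e2] at h2
      have h3 := hI' g _ (h1.1 h2)
      rwa [e1] at h3
    · intro hx
      have h2 := hI' g.symm x hx
      rw [← e2] at h2
      have h3 := hI g _ (h1.2 h2)
      rwa [e1] at h3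

/-- restriction of an automorphism to an invariant subring -/
def restr (B : NonUnitalSubring A) (hB : ∀ g : A ≃+* A, ∀ x ∈ B, g x ∈ B) (g : A ≃+* A) :
    B ≃+* B where
  toFun x := ⟨g x, hB g x x.2⟩
  invFun x := ⟨g.symm x, hB g.symm x x.2⟩
  left_inv x := by
    apply Subtype.ext
    exact g.symm_apply_apply x.1
  right_inv x := by
    apply Subtype.ext
    exact g.apply_symm_apply x.1
  map_mul' x y := by
    apply Subtype.ext
    exact map_mul g x.1 y.1
  map_add' x y := by
    apply Subtype.ext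
    exact map_add g x.1 y.1

theorem olig_sub (hO : Olig A) (B : NonUnitalSubring A)
    (hB : ∀ g : A ≃+* A, ∀ x ∈ B, g x ∈ B) : Olig B := by
  classical
  obtain ⟨S, hS⟩ := hO
  refine ⟨S.image fun s i => if h : s i ∈ B then ⟨s i, h⟩ else 0, ?_⟩
  intro v
  obtain ⟨s, hs, g, hg⟩ := hS (fun i => (v i : A))
  refine ⟨_, Finset.mem_image.2 ⟨s, hs, rfl⟩, restr B hB g, ?_⟩
  intro i
  have h : s i ∈ B := by
    have e : s i = g.symm (v i) := by rw [← hg i, RingEquiv.symm_apply_apply]
    rw [e]
    exact hB g.symm _ (v i).2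
  apply Subtype.ext
  simp only [dif_pos h]
  exact hg i

/-- the hypothesis: every proper characteristic ideal `K` has an ideal `I` not contained in it with
`I * I ≤ K` -/
def Rad (A : Type*) [NonUnitalNonAssocRing A] : Prop :=
  ∀ K : AddSubgroup A, IsIdeal K → IsChar K → K ≠ ⊤ →
    ∃ I : AddSubgroup A, IsIdeal I ∧ ¬ I ≤ K ∧ ∀ x ∈ I, ∀ y ∈ I, x * y ∈ K

/-- the hypothesis passes to invariant subrings (in the form needed) -/
theorem rad_sub (hO : Olig A) (hR : Rad A) (B : NonUnitalSubring A) (J : AddSubgroup B)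
    (hJt : J ≠ ⊤) :
    ∃ I : AddSubgroup B, IsIdeal I ∧ ¬ I ≤ J ∧ ∀ x ∈ I, ∀ y ∈ I, x * y ∈ J := by
  classical
  by_contra hcon
  push Not at hcon
  -- ideals of `A` meeting `B` in `J`
  let T : AddSubgroup A → Prop := fun M => ∀ x ∈ M, ∀ h : x ∈ B, (⟨x, h⟩ : B) ∈ J
  have hfin : {K : AddSubgroup A | IsIdeal K ∧ IsChar K ∧ T K}.Finite :=
    (finite_char hO).subset fun K hK => hK.2.1
  have hne : {K : AddSubgroup A | IsIdeal K ∧ IsChar K ∧ T K}.Nonempty := by
    refine ⟨⊥, ?_, ?_, ?_⟩
    · intro x hx c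
      rw [AddSubgroup.mem_bot] at hx
      subst hx
      rw [mul_zero, zero_mul]
      exact ⟨AddSubgroup.zero_mem _, AddSubgroup.zero_mem _⟩
    · intro g x hx
      rw [AddSubgroup.mem_bot] at hx
      subst hx
      rw [map_zero]
      exact AddSubgroup.zero_mem _
    · intro x hx h
      rw [AddSubgroup.mem_bot] at hx
      subst hx
      exact J.zero_mem
  obtain ⟨K, ⟨hK1, hK2, hK3⟩, hKmax⟩ := hfin.exists_maximal hne
  have hKt : K ≠ ⊤ := by
    intro h
    apply hJt
    rw [eq_top_iff]
    intro x _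
    exact hK3 x.1 (by rw [h]; exact AddSubgroup.mem_top _) x.2
  obtain ⟨I, hI, hIK, hsq⟩ := hR K hK1 hK2 hKt
  -- adding an ideal with square in `K`
  have hadd : ∀ M I : AddSubgroup A, IsIdeal M → T M → K ≤ M → IsIdeal I →
      (∀ x ∈ I, ∀ y ∈ I, x * y ∈ K) → IsIdeal (M ⊔ I) ∧ T (M ⊔ I) := by
    intro M I hM hT hKM hI hIK
    have h1 : IsIdeal (M ⊔ I) := by
      intro x hx c
      obtain ⟨a, ha, b, hb, rfl⟩ := AddSubgroup.mem_sup.1 hx
      rw [mul_add, add_mul]
      exact ⟨AddSubgroup.add_mem_sup (hM a ha c).1 (hI b hb c).1,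
        AddSubgroup.add_mem_sup (hM a ha c).2 (hI b hb c).2⟩
    refine ⟨h1, ?_⟩
    by_contra hT'
    -- the trace of `M ⊔ I` on `B`
    let I0 : AddSubgroup B :=
      { carrier := {x | (x : A) ∈ M ⊔ I}
        zero_mem' := (M ⊔ I).zero_mem
        add_mem' := fun {a b} ha hb => AddSubgroup.add_mem (M ⊔ I) ha hb
        neg_mem' := fun {a} ha => AddSubgroup.neg_mem (M ⊔ I) ha }
    have hI0 : IsIdeal I0 := fun x hx c => h1 x.1 hx c.1
    have hnot : ¬ I0 ≤ J := by
      intro h
      apply hT'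
      intro x hx hxB
      exact h (show (⟨x, hxB⟩ : B) ∈ I0 from hx)
    obtain ⟨x, hx, y, hy, hxy⟩ := hcon I0 hI0 hnot
    apply hxy
    obtain ⟨a, ha, b, hb, e1⟩ := AddSubgroup.mem_sup.1 (show (x : A) ∈ M ⊔ I from hx)
    obtain ⟨a', ha', b', hb', e2⟩ := AddSubgroup.mem_sup.1 (show (y : A) ∈ M ⊔ I from hy)
    have h2 : (x : A) * (y : A) ∈ M := by
      rw [← e1, ← e2, add_mul, mul_add b]
      exact M.add_mem (hM a ha _).2 (M.add_mem (hM a' ha' _).1 (hKM (hIK b hb b' hb')))
    exact hT _ h2 (x * y).2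
  -- the sum of all ideals with square in `K`
  have hW1 : IsIdeal (AddSubgroup.closure (US K)) := by
    apply isIdeal_closure
    rintro x ⟨I, hI, hIJ, hx⟩ c
    exact ⟨AddSubgroup.subset_closure ⟨I, hI, hIJ, (hI x hx c).1⟩,
      AddSubgroup.subset_closure ⟨I, hI, hIJ, (hI x hx c).2⟩⟩
  have hW2 : IsChar (AddSubgroup.closure (US K)) := by
    apply isChar_closure
    intro g x hx
    exact AddSubgroup.subset_closure (US_map hK2 g hx)
  have hKW : K ≤ AddSubgroup.closure (US K) := by
    intro x hx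
    exact AddSubgroup.subset_closure ⟨K, hK1, fun a ha b _ => (hK1 a ha b).2, hx⟩
  have hW3 : T (AddSubgroup.closure (US K)) := by
    have key : ∀ x ∈ AddSubgroup.closure (US K), ∀ M : AddSubgroup A, IsIdeal M → T M → K ≤ M →
        ∃ M' : AddSubgroup A, IsIdeal M' ∧ T M' ∧ M ≤ M' ∧ x ∈ M' := by
      intro x hx
      induction hx using AddSubgroup.closure_induction with
      | mem x hx =>
        intro M hM hT hKM
        obtain ⟨I, hI, hIK, hx⟩ := hx
        obtain ⟨h1, h2⟩ := hadd M I hM hT hKM hI hIK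
        exact ⟨M ⊔ I, h1, h2, le_sup_left, (le_sup_right : I ≤ M ⊔ I) hx⟩
      | zero => intro M hM hT _; exact ⟨M, hM, hT, le_rfl, M.zero_mem⟩
      | add a b _ _ ha hb =>
        intro M hM hT hKM
        obtain ⟨M1, h1, h2, h3, h4⟩ := ha M hM hT hKM
        obtain ⟨M2, h5, h6, h7, h8⟩ := hb M1 h1 h2 (hKM.trans h3)
        exact ⟨M2, h5, h6, h3.trans h7, M2.add_mem (h7 h4) h8⟩
      | neg a _ ha =>
        intro M hM hT hKM
        obtain ⟨M1, h1, h2, h3, h4⟩ := ha M hM hT hKM
        exact ⟨M1, h1, h2, h3, M1.neg_mem h4⟩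
    intro x hx hxB
    obtain ⟨M', -, h2, -, h4⟩ := key x hx K hK1 hK3 le_rfl
    exact h2 x h4 hxB
  apply hIK
  intro x hx
  have h5 : AddSubgroup.closure (US K) ≤ K := hKmax ⟨hW1, hW2, hW3⟩ hKW
  exact h5 (AddSubgroup.subset_closure ⟨I, hI, hsq, hx⟩)

/-- The derived powers: `A^(0) = A`, and `A^(k+1)` is the additive subgroup spanned by the products
of two elements of `A^(k)`. -/
def Derived (A : Type*) [NonUnitalNonAssocRing A] : ℕ → AddSubgroup A
  | 0 => ⊤
  | k + 1 => AddSubgroup.closure {z : A | ∃ u ∈ Derived A k, ∃ v ∈ Derived A k, u * v = z}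

/-- some derived power is zero -/
def Solvable (A : Type*) [NonUnitalNonAssocRing A] : Prop := ∃ k, Derived A k = ⊥

/-- the main theorem, in terms of orbits -/
theorem solvable (hO : Olig A) (hR : Rad A) : Solvable A := by
  let D : ℕ → AddSubgroup A := Derived A
  have h0 : D 0 = ⊤ := rfl
  have hs : ∀ k, D (k + 1) = AddSubgroup.closure {z : A | ∃ u ∈ D k, ∃ v ∈ D k, u * v = z} :=
    fun k => rfl
  show ∃ k, D k = ⊥
  clear_value D
  classical
  by_contra hcon
  push Not at hcon
  have hchar : ∀ k, IsChar (D k) := by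
    intro k
    induction k with
    | zero => intro g x _; rw [h0]; exact AddSubgroup.mem_top _
    | succ k ih =>
      rw [hs]
      apply isChar_closure
      rintro g _ ⟨u, hu, v, hv, rfl⟩
      rw [map_mul]
      exact AddSubgroup.subset_closure ⟨g u, ih g u hu, g v, ih g v hv, rfl⟩
  have hanti1 : ∀ k, D (k + 1) ≤ D k := by
    intro k
    induction k with
    | zero => rw [h0]; exact le_top
    | succ k ih =>
      rw [hs (k + 1), AddSubgroup.closure_le]
      rintro _ ⟨u, hu, v, hv, rfl⟩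
      have hu' : u ∈ D k := ih hu
      have hv' : v ∈ D k := ih hv
      show u * v ∈ D (k + 1)
      rw [hs k]
      exact AddSubgroup.subset_closure ⟨u, hu', v, hv', rfl⟩
  have hanti : Antitone D := antitone_nat_of_succ_le hanti1
  -- stabilisation
  obtain ⟨k, hk⟩ : ∃ k, D (k + 1) = D k := by
    have hfin : (Set.range D).Finite := (finite_char hO).subset (by
      rintro _ ⟨k, rfl⟩
      exact hchar k)
    have : Finite (Set.range D) := hfin
    obtain ⟨i, j, hij, he⟩ := Finite.exists_ne_map_eq_of_infinite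
      (fun k : ℕ => (⟨D k, k, rfl⟩ : Set.range D))
    have he' : D i = D j := congrArg Subtype.val he
    rcases lt_or_gt_of_ne hij with h | h
    · refine ⟨i, le_antisymm (hanti1 i) ?_⟩
      rw [he']
      exact hanti h
    · refine ⟨j, le_antisymm (hanti1 j) ?_⟩
      rw [← he']
      exact hanti h
  -- the perfect subring
  let B : NonUnitalSubring A :=
    { carrier := D k
      zero_mem' := (D k).zero_mem
      add_mem' := fun {a b} ha hb => (D k).add_mem ha hb
      neg_mem' := fun {a} ha => (D k).neg_mem ha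
      mul_mem' := by
        intro a b ha hb
        show a * b ∈ D k
        rw [← hk, hs k]
        exact AddSubgroup.subset_closure ⟨a, ha, b, hb, rfl⟩ }
  have hB : ∀ g : A ≃+* A, ∀ x ∈ B, g x ∈ B := fun g x hx => hchar k g x hx
  have hOB := olig_sub hO B hB
  have hperf : AddSubgroup.closure {z : B | ∃ x y, x * y = z} = ⊤ := by
    let X := AddSubgroup.closure {z : B | ∃ x y, x * y = z}
    let φ : B →+ A := AddSubgroupClass.subtype B
    have h1 : D (k + 1) ≤ X.map φ := by
      rw [hs k, AddSubgroup.closure_le]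
      rintro _ ⟨u, hu, v, hv, rfl⟩
      refine ⟨(⟨u, hu⟩ : B) * (⟨v, hv⟩ : B), AddSubgroup.subset_closure ⟨_, _, rfl⟩, rfl⟩
    rw [eq_top_iff]
    intro x _
    have h2 : (x : A) ∈ X.map φ := h1 (by rw [hk]; exact x.2)
    obtain ⟨y, hy, hyx⟩ := h2
    have : y = x := Subtype.ext hyx
    rw [← this]
    exact hy
  -- a maximal proper characteristic ideal
  have hfin : {I : AddSubgroup B | IsIdeal I ∧ IsChar I ∧ I ≠ ⊤}.Finite :=
    (finite_char hOB).subset fun K hK => hK.2.1
  have hne : {I : AddSubgroup B | IsIdeal I ∧ IsChar I ∧ I ≠ ⊤}.Nonempty := by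
    refine ⟨⊥, ?_, ?_, ?_⟩
    · intro x hx c
      rw [AddSubgroup.mem_bot] at hx
      subst hx
      rw [mul_zero, zero_mul]
      exact ⟨AddSubgroup.zero_mem _, AddSubgroup.zero_mem _⟩
    · intro g x hx
      rw [AddSubgroup.mem_bot] at hx
      subst hx
      rw [map_zero]
      exact AddSubgroup.zero_mem _
    · intro h
      apply hcon k
      rw [eq_bot_iff]
      intro x hx
      have h1 : (⟨x, hx⟩ : B) ∈ (⊥ : AddSubgroup B) := by rw [h]; exact AddSubgroup.mem_top _
      rw [AddSubgroup.mem_bot] at h1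
      rw [AddSubgroup.mem_bot]
      exact congrArg Subtype.val h1
  obtain ⟨J, ⟨hJ1, hJ2, hJ3⟩, hJmax⟩ := hfin.exists_maximal hne
  obtain ⟨I0, hI0, hI0J, hsq⟩ := rad_sub hO hR B J hJ3
  refine core hOB hperf J hJ1 hJ2 hJ3 ?_ I0 hI0 hI0J hsq
  intro I hI hIc hJI hne'
  by_contra hIt
  exact hne' (le_antisymm (hJmax ⟨hI, hIc, hIt⟩ hJI) hJI)

/-- The alternative laws. -/
def Alternative (A : Type*) [NonUnitalNonAssocRing A] : Prop :=
  ∀ x y : A, (x * x) * y = x * (x * y) ∧ (y * x) * x = y * (x * x)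

/-- in an alternative ring the square of an ideal is an ideal -/
theorem Alternative.sq (hA : Alternative A) {I : AddSubgroup A} (hI : IsIdeal I) :
    IsIdeal (AddSubgroup.closure {z : A | ∃ u ∈ I, ∃ v ∈ I, u * v = z}) := by
  -- linearised laws
  have hl : ∀ x y z : A, (x * y) * z - x * (y * z) + ((y * x) * z - y * (x * z)) = 0 := by
    intro x y z
    have h1 := (hA (x + y) z).1
    have h2 := (hA x z).1
    have h3 := (hA y z).1
    simp only [add_mul, mul_add] at h1
    rw [h2, h3] at h1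
    have h4 : x * (x * z) + (x * y) * z + ((y * x) * z + y * (y * z)) -
        (x * (x * z) + y * (x * z) + (x * (y * z) + y * (y * z))) = 0 := by
      rw [sub_eq_zero]
      convert h1 using 1 <;> abel
    rw [← h4]
    abel
  have hr : ∀ x y z : A, (x * y) * z - x * (y * z) + ((x * z) * y - x * (z * y)) = 0 := by
    intro x y z
    have h1 := (hA (y + z) x).2
    have h2 := (hA y x).2
    have h3 := (hA z x).2
    simp only [add_mul, mul_add] at h1
    rw [h2, h3] at h1
    have h4 : x * (y * y) + (x * z) * y + ((x * y) * z + x * (z * z)) -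
        (x * (y * y) + x * (y * z) + (x * (z * y) + x * (z * z))) = 0 := by
      rw [sub_eq_zero]
      convert h1 using 1 <;> abel
    rw [← h4]
    abel
  apply isIdeal_closure
  rintro _ ⟨u, hu, v, hv, rfl⟩ c
  have hm : ∀ a ∈ I, ∀ b ∈ I, a * b ∈ AddSubgroup.closure {z : A | ∃ u ∈ I, ∃ v ∈ I, u * v = z} :=
    fun a ha b hb => AddSubgroup.subset_closure ⟨a, ha, b, hb, rfl⟩
  constructor
  · -- `c (u v) = (c u) v + (u c) v - u (c v)`
    have h := hl c u v
    have e : c * (u * v) = (c * u) * v + ((u * c) * v - u * (c * v)) := by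
      rw [← sub_eq_zero, ← neg_eq_zero, ← h]
      abel
    rw [e]
    exact AddSubgroup.add_mem _ (hm _ (hI u hu c).1 _ hv)
      (AddSubgroup.sub_mem _ (hm _ (hI u hu c).2 _ hv) (hm _ hu _ (hI v hv c).1))
  · -- `(u v) c = u (v c) - (u c) v + u (c v)`
    have h := hr u v c
    have e : (u * v) * c = u * (v * c) - ((u * c) * v - u * (c * v)) := by
      rw [← sub_eq_zero, ← h]
      abel
    rw [e]
    exact AddSubgroup.sub_mem _ (hm _ hu _ (hI v hv c).2)
      (AddSubgroup.sub_mem _ (hm _ (hI u hu c).2 _ hv) (hm _ hu _ (hI v hv c).1))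

/-- solvable alternative rings satisfy the hypothesis -/
theorem Alternative.rad (hA : Alternative A) (hS : Solvable A) : Rad A := by
  classical
  obtain ⟨k, hk⟩ := hS
  have hid : ∀ k, IsIdeal (Derived A k) := by
    intro k
    induction k with
    | zero => intro x _ c; exact ⟨AddSubgroup.mem_top _, AddSubgroup.mem_top _⟩
    | succ k ih => exact hA.sq ih
  intro K _ _ hKt
  -- the last derived power not contained in `K`
  have h0 : ¬ Derived A 0 ≤ K := fun h => hKt (top_le_iff.1 h)
  have hk' : Derived A k ≤ K := by rw [hk]; exact bot_le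
  have hex : ∃ j, Derived A j ≤ K := ⟨k, hk'⟩
  have hj : Nat.find hex ≠ 0 := fun h => h0 (h ▸ Nat.find_spec hex)
  obtain ⟨j, hj'⟩ := Nat.exists_eq_succ_of_ne_zero hj
  refine ⟨Derived A j, hid j, Nat.find_min hex (by omega), ?_⟩
  intro x hx y hy
  have h1 := Nat.find_spec hex
  rw [hj'] at h1
  exact h1 (AddSubgroup.subset_closure ⟨x, hx, y, hy, rfl⟩)

end

end Pool.Agent.J6H59.CC
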